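import Mathlib
import Pool.Agent.Work.MP_332575_al.Main
import Pool.Agent.Work.MP_332575_al.Bd.B04
import Pool.Agent.Work.MP_332575_al.Bd.B02

set_option autoImplicit false

/-! The assembly: the frozen statement from a faithful lattice, torsion-freeness and `SP`. -/

namespace VRC.Pk

theorem assembly
    (hR1 : ∀ v : ℕ → ℤ, tp (xt D36) v 36 = 1 → ∀ i < 36, v i = 0)
    (htf : ∀ g : XG D36, g ≠ 1 → ¬ IsOfFinOrder g)
    (hSP : VRC.SP (XG D36)) :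
    ∃ (G : Type) (_ : Group G),
    (∃ (n : ℕ) (R : Finset (FreeGroup (Fin n))),
      Nonempty (G ≃* PresentedGroup (R : Set (FreeGroup (Fin n))))) ∧
    (∀ g : G, g ≠ 1 → ¬ IsOfFinOrder g) ∧
    (∀ g : G, ∃ K : Subgroup G, K.index ≠ 0 ∧ g ∈ K ∧
      ∃ ρ : K →* G, (∀ k : K, ρ k ∈ Subgroup.zpowers g) ∧
        ∀ k : K, (k : G) = g → ρ k = g) ∧
    ¬ (∃ H : Subgroup G, H.index ≠ 0 ∧ ∀ a ∈ H, ∀ b ∈ H, a * b = b * a) ∧
    ¬ (∃ H : Subgroup G, H.index ≠ 0 ∧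
        ∃ φ : H →* FreeGroup (Fin 2), Function.Surjective φ) := by
  obtain ⟨hVAN, hRF, hVI⟩ := XG_cryst hR1
  have hnt : ∃ g : XG D36, g ≠ 1 := by
    refine ⟨xt D36 0, fun h0 => ?_⟩
    have h1 : tp (xt D36) (fun j => if j = 0 then 1 else 0) 36 = 1 := by
      rw [tp_single _ 0 36 (by omega), h0]
    have h2 := hR1 _ h1 0 (by omega)
    simp at h2
  exact VRC.main_TF (XG D36) (XG_fp D36) XG_perfect hSP hVAN hRF hVI htf hnt

end VRC.Pk
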