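import Pool.Agent.Work.MP_332575_al.Bd.B01

/-! # Data of the affine representation in dimension 36 (generated): letters 0-12 = k_1..k_11, a, b;
13-25 their inverses -/

set_option autoImplicit false
set_option maxRecDepth 100000

namespace VRC.Cx.D36


/-- letter 0 -/
def L0 : List (List (ℕ × ℤ) × ℤ) :=
  [([(35, Int.negSucc 0)], Int.negSucc 41),
   ([(34, Int.negSucc 0)], Int.negSucc 41),
   ([(33, Int.ofNat 1)], Int.negSucc 41),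
   ([(32, Int.ofNat 1)], Int.negSucc 83),
   ([(31, Int.ofNat 1)], Int.negSucc 41),
   ([(30, Int.negSucc 0)], Int.negSucc 83),
   ([(29, Int.negSucc 0)], Int.negSucc 41),
   ([(28, Int.negSucc 0)], Int.negSucc 41),
   ([(27, Int.ofNat 1)], Int.negSucc 41),
   ([(26, Int.negSucc 0)], Int.negSucc 83),
   ([(25, Int.negSucc 0)], Int.negSucc 41),
   ([(24, Int.ofNat 1)], Int.ofNat 0),
   ([(23, Int.negSucc 0)], Int.negSucc 167),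
   ([(22, Int.negSucc 0)], Int.ofNat 0),
   ([(21, Int.ofNat 1)], Int.ofNat 0),
   ([(20, Int.negSucc 0)], Int.negSucc 125),
   ([(19, Int.ofNat 1)], Int.negSucc 41),
   ([(18, Int.ofNat 1)], Int.negSucc 41),
   ([(17, Int.negSucc 0)], Int.negSucc 83),
   ([(16, Int.ofNat 1)], Int.negSucc 125),
   ([(15, Int.negSucc 0)], Int.ofNat 42),
   ([(14, Int.ofNat 1)], Int.ofNat 0),
   ([(13, Int.ofNat 1)], Int.ofNat 0),
   ([(12, Int.ofNat 1)], Int.ofNat 0),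
   ([(11, Int.ofNat 1)], Int.ofNat 0),
   ([(10, Int.ofNat 1)], Int.ofNat 0),
   ([(9, Int.ofNat 1)], Int.ofNat 0),
   ([(8, Int.ofNat 1)], Int.ofNat 0),
   ([(7, Int.ofNat 1)], Int.ofNat 0),
   ([(6, Int.ofNat 1)], Int.ofNat 0),
   ([(5, Int.ofNat 1)], Int.ofNat 0),
   ([(4, Int.ofNat 1)], Int.ofNat 0),
   ([(3, Int.ofNat 1)], Int.ofNat 0),
   ([(2, Int.ofNat 1)], Int.ofNat 0),
   ([(1, Int.ofNat 1)], Int.ofNat 0),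
   ([(0, Int.ofNat 1)], Int.negSucc 83)]

/-- letter 1 -/
def L1 : List (List (ℕ × ℤ) × ℤ) :=
  [([(35, Int.negSucc 0)], Int.negSucc 41),
   ([(34, Int.ofNat 1)], Int.ofNat 0),
   ([(33, Int.ofNat 1)], Int.negSucc 41),
   ([(32, Int.negSucc 0)], Int.negSucc 41),
   ([(31, Int.negSucc 0)], Int.negSucc 41),
   ([(30, Int.negSucc 0)], Int.negSucc 83),
   ([(29, Int.ofNat 1)], Int.negSucc 41),
   ([(28, Int.negSucc 0)], Int.ofNat 0),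
   ([(27, Int.ofNat 1)], Int.ofNat 0),
   ([(26, Int.negSucc 0)], Int.negSucc 41),
   ([(25, Int.negSucc 0)], Int.ofNat 0),
   ([(24, Int.ofNat 1)], Int.ofNat 42),
   ([(23, Int.ofNat 1)], Int.ofNat 0),
   ([(22, Int.negSucc 0)], Int.negSucc 41),
   ([(21, Int.negSucc 0)], Int.ofNat 0),
   ([(20, Int.ofNat 1)], Int.negSucc 41),
   ([(19, Int.negSucc 0)], Int.ofNat 42),
   ([(18, Int.negSucc 0)], Int.ofNat 0),
   ([(17, Int.ofNat 1)], Int.negSucc 41),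
   ([(16, Int.negSucc 0)], Int.negSucc 125),
   ([(15, Int.ofNat 1)], Int.negSucc 125),
   ([(14, Int.ofNat 1)], Int.ofNat 0),
   ([(13, Int.ofNat 1)], Int.ofNat 0),
   ([(12, Int.ofNat 1)], Int.ofNat 0),
   ([(11, Int.ofNat 1)], Int.ofNat 0),
   ([(10, Int.ofNat 1)], Int.ofNat 0),
   ([(9, Int.ofNat 1)], Int.ofNat 0),
   ([(8, Int.ofNat 1)], Int.ofNat 0),
   ([(7, Int.ofNat 1)], Int.ofNat 0),
   ([(6, Int.ofNat 1)], Int.ofNat 0),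
   ([(5, Int.ofNat 1)], Int.ofNat 0),
   ([(4, Int.ofNat 1)], Int.ofNat 0),
   ([(3, Int.ofNat 1)], Int.ofNat 0),
   ([(2, Int.ofNat 1)], Int.ofNat 0),
   ([(1, Int.ofNat 1)], Int.negSucc 83),
   ([(0, Int.ofNat 1)], Int.ofNat 0)]

/-- letter 2 -/
def L2 : List (List (ℕ × ℤ) × ℤ) :=
  [([(35, Int.ofNat 1)], Int.negSucc 41),
   ([(34, Int.negSucc 0)], Int.ofNat 0),
   ([(33, Int.negSucc 0)], Int.negSucc 41),
   ([(32, Int.negSucc 0)], Int.ofNat 0),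
   ([(31, Int.ofNat 1)], Int.ofNat 0),
   ([(30, Int.negSucc 0)], Int.negSucc 41),
   ([(29, Int.ofNat 1)], Int.negSucc 83),
   ([(28, Int.negSucc 0)], Int.ofNat 0),
   ([(27, Int.negSucc 0)], Int.ofNat 0),
   ([(26, Int.negSucc 0)], Int.ofNat 0),
   ([(25, Int.ofNat 1)], Int.negSucc 83),
   ([(24, Int.negSucc 0)], Int.ofNat 0),
   ([(23, Int.ofNat 1)], Int.ofNat 42),
   ([(22, Int.ofNat 1)], Int.negSucc 41),
   ([(21, Int.ofNat 1)], Int.ofNat 42),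
   ([(20, Int.ofNat 1)], Int.ofNat 42),
   ([(19, Int.ofNat 1)], Int.ofNat 42),
   ([(18, Int.negSucc 0)], Int.ofNat 0),
   ([(17, Int.negSucc 0)], Int.ofNat 0),
   ([(16, Int.negSucc 0)], Int.negSucc 83),
   ([(15, Int.negSucc 0)], Int.negSucc 83),
   ([(14, Int.ofNat 1)], Int.ofNat 0),
   ([(13, Int.ofNat 1)], Int.ofNat 0),
   ([(12, Int.ofNat 1)], Int.ofNat 0),
   ([(11, Int.ofNat 1)], Int.ofNat 0),
   ([(10, Int.ofNat 1)], Int.ofNat 0),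
   ([(9, Int.ofNat 1)], Int.ofNat 0),
   ([(8, Int.ofNat 1)], Int.ofNat 0),
   ([(7, Int.ofNat 1)], Int.ofNat 0),
   ([(6, Int.ofNat 1)], Int.ofNat 0),
   ([(5, Int.ofNat 1)], Int.ofNat 0),
   ([(4, Int.ofNat 1)], Int.ofNat 0),
   ([(3, Int.ofNat 1)], Int.ofNat 0),
   ([(2, Int.ofNat 1)], Int.negSucc 83),
   ([(1, Int.ofNat 1)], Int.ofNat 0),
   ([(0, Int.ofNat 1)], Int.ofNat 0)]

/-- letter 3 -/
def L3 : List (List (ℕ × ℤ) × ℤ) :=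
  [([(35, Int.negSucc 0)], Int.ofNat 0),
   ([(34, Int.negSucc 0)], Int.ofNat 0),
   ([(33, Int.negSucc 0)], Int.ofNat 0),
   ([(32, Int.ofNat 1)], Int.ofNat 0),
   ([(31, Int.ofNat 1)], Int.ofNat 0),
   ([(30, Int.ofNat 1)], Int.negSucc 41),
   ([(29, Int.ofNat 1)], Int.ofNat 0),
   ([(28, Int.ofNat 1)], Int.ofNat 0),
   ([(27, Int.negSucc 0)], Int.ofNat 0),
   ([(26, Int.ofNat 1)], Int.ofNat 0),
   ([(25, Int.ofNat 1)], Int.negSucc 83),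
   ([(24, Int.ofNat 1)], Int.negSucc 83),
   ([(23, Int.ofNat 1)], Int.negSucc 125),
   ([(22, Int.negSucc 0)], Int.ofNat 0),
   ([(21, Int.ofNat 1)], Int.negSucc 83),
   ([(20, Int.ofNat 1)], Int.negSucc 83),
   ([(19, Int.ofNat 1)], Int.negSucc 83),
   ([(18, Int.ofNat 1)], Int.ofNat 0),
   ([(17, Int.ofNat 1)], Int.negSucc 83),
   ([(16, Int.ofNat 1)], Int.negSucc 41),
   ([(15, Int.negSucc 0)], Int.ofNat 42),
   ([(14, Int.ofNat 1)], Int.ofNat 0),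
   ([(13, Int.ofNat 1)], Int.ofNat 0),
   ([(12, Int.ofNat 1)], Int.ofNat 0),
   ([(11, Int.ofNat 1)], Int.ofNat 0),
   ([(10, Int.ofNat 1)], Int.ofNat 0),
   ([(9, Int.ofNat 1)], Int.ofNat 0),
   ([(8, Int.ofNat 1)], Int.ofNat 0),
   ([(7, Int.ofNat 1)], Int.negSucc 83),
   ([(6, Int.ofNat 1)], Int.ofNat 0),
   ([(5, Int.ofNat 1)], Int.ofNat 0),
   ([(4, Int.ofNat 1)], Int.ofNat 0),
   ([(3, Int.ofNat 1)], Int.ofNat 0),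
   ([(2, Int.ofNat 1)], Int.ofNat 0),
   ([(1, Int.ofNat 1)], Int.ofNat 0),
   ([(0, Int.ofNat 1)], Int.ofNat 0)]

/-- letter 4 -/
def L4 : List (List (ℕ × ℤ) × ℤ) :=
  [([(35, Int.negSucc 0)], Int.ofNat 0),
   ([(34, Int.ofNat 1)], Int.ofNat 0),
   ([(33, Int.negSucc 0)], Int.ofNat 0),
   ([(32, Int.negSucc 0)], Int.ofNat 0),
   ([(31, Int.ofNat 1)], Int.ofNat 0),
   ([(30, Int.ofNat 1)], Int.negSucc 41),
   ([(29, Int.ofNat 1)], Int.negSucc 83),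
   ([(28, Int.ofNat 1)], Int.ofNat 0),
   ([(27, Int.ofNat 1)], Int.ofNat 0),
   ([(26, Int.ofNat 1)], Int.ofNat 0),
   ([(25, Int.ofNat 1)], Int.ofNat 0),
   ([(24, Int.negSucc 0)], Int.negSucc 83),
   ([(23, Int.ofNat 1)], Int.negSucc 83),
   ([(22, Int.negSucc 0)], Int.negSucc 41),
   ([(21, Int.ofNat 1)], Int.negSucc 41),
   ([(20, Int.ofNat 1)], Int.negSucc 83),
   ([(19, Int.ofNat 1)], Int.ofNat 0),
   ([(18, Int.ofNat 1)], Int.ofNat 0),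
   ([(17, Int.ofNat 1)], Int.ofNat 0),
   ([(16, Int.negSucc 0)], Int.negSucc 41),
   ([(15, Int.ofNat 1)], Int.negSucc 125),
   ([(14, Int.ofNat 1)], Int.ofNat 0),
   ([(13, Int.ofNat 1)], Int.ofNat 0),
   ([(12, Int.ofNat 1)], Int.ofNat 0),
   ([(11, Int.ofNat 1)], Int.ofNat 0),
   ([(10, Int.ofNat 1)], Int.ofNat 0),
   ([(9, Int.ofNat 1)], Int.ofNat 0),
   ([(8, Int.ofNat 1)], Int.negSucc 83),
   ([(7, Int.ofNat 1)], Int.ofNat 0),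
   ([(6, Int.ofNat 1)], Int.ofNat 0),
   ([(5, Int.ofNat 1)], Int.ofNat 0),
   ([(4, Int.ofNat 1)], Int.ofNat 0),
   ([(3, Int.ofNat 1)], Int.ofNat 0),
   ([(2, Int.ofNat 1)], Int.ofNat 0),
   ([(1, Int.ofNat 1)], Int.ofNat 0),
   ([(0, Int.ofNat 1)], Int.ofNat 0)]

/-- letter 5 -/
def L5 : List (List (ℕ × ℤ) × ℤ) :=
  [([(35, Int.ofNat 1)], Int.ofNat 0),
   ([(34, Int.ofNat 1)], Int.ofNat 0),
   ([(33, Int.ofNat 1)], Int.ofNat 0),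
   ([(32, Int.ofNat 1)], Int.ofNat 0),
   ([(31, Int.negSucc 0)], Int.ofNat 0),
   ([(30, Int.ofNat 1)], Int.ofNat 0),
   ([(29, Int.negSucc 0)], Int.ofNat 0),
   ([(28, Int.negSucc 0)], Int.negSucc 41),
   ([(27, Int.ofNat 1)], Int.ofNat 0),
   ([(26, Int.negSucc 0)], Int.negSucc 41),
   ([(25, Int.ofNat 1)], Int.negSucc 125),
   ([(24, Int.ofNat 1)], Int.negSucc 83),
   ([(23, Int.ofNat 1)], Int.ofNat 0),
   ([(22, Int.ofNat 1)], Int.ofNat 0),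
   ([(21, Int.ofNat 1)], Int.ofNat 0),
   ([(20, Int.negSucc 0)], Int.negSucc 41),
   ([(19, Int.negSucc 0)], Int.negSucc 125),
   ([(18, Int.ofNat 1)], Int.negSucc 125),
   ([(17, Int.ofNat 1)], Int.negSucc 125),
   ([(16, Int.ofNat 1)], Int.negSucc 83),
   ([(15, Int.ofNat 1)], Int.ofNat 0),
   ([(14, Int.ofNat 1)], Int.ofNat 0),
   ([(13, Int.ofNat 1)], Int.ofNat 0),
   ([(12, Int.ofNat 1)], Int.ofNat 0),
   ([(11, Int.ofNat 1)], Int.ofNat 0),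
   ([(10, Int.ofNat 1)], Int.ofNat 0),
   ([(9, Int.ofNat 1)], Int.negSucc 83),
   ([(8, Int.ofNat 1)], Int.ofNat 0),
   ([(7, Int.ofNat 1)], Int.ofNat 0),
   ([(6, Int.ofNat 1)], Int.ofNat 0),
   ([(5, Int.ofNat 1)], Int.ofNat 0),
   ([(4, Int.ofNat 1)], Int.ofNat 0),
   ([(3, Int.ofNat 1)], Int.ofNat 0),
   ([(2, Int.ofNat 1)], Int.ofNat 0),
   ([(1, Int.ofNat 1)], Int.ofNat 0),
   ([(0, Int.ofNat 1)], Int.ofNat 0)]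

/-- letter 6 -/
def L6 : List (List (ℕ × ℤ) × ℤ) :=
  [([(35, Int.ofNat 1)], Int.ofNat 0),
   ([(34, Int.negSucc 0)], Int.negSucc 41),
   ([(33, Int.ofNat 1)], Int.ofNat 0),
   ([(32, Int.ofNat 1)], Int.ofNat 0),
   ([(31, Int.negSucc 0)], Int.ofNat 0),
   ([(30, Int.ofNat 1)], Int.ofNat 0),
   ([(29, Int.negSucc 0)], Int.ofNat 0),
   ([(28, Int.ofNat 1)], Int.negSucc 83),
   ([(27, Int.ofNat 1)], Int.negSucc 125),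
   ([(26, Int.ofNat 1)], Int.negSucc 125),
   ([(25, Int.ofNat 1)], Int.negSucc 41),
   ([(24, Int.ofNat 1)], Int.ofNat 0),
   ([(23, Int.negSucc 0)], Int.ofNat 0),
   ([(22, Int.ofNat 1)], Int.negSucc 83),
   ([(21, Int.ofNat 1)], Int.negSucc 83),
   ([(20, Int.ofNat 1)], Int.ofNat 0),
   ([(19, Int.negSucc 0)], Int.ofNat 0),
   ([(18, Int.ofNat 1)], Int.negSucc 83),
   ([(17, Int.negSucc 0)], Int.negSucc 125),
   ([(16, Int.ofNat 1)], Int.negSucc 83),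
   ([(15, Int.ofNat 1)], Int.ofNat 0),
   ([(14, Int.ofNat 1)], Int.ofNat 0),
   ([(13, Int.ofNat 1)], Int.ofNat 0),
   ([(12, Int.ofNat 1)], Int.ofNat 0),
   ([(11, Int.ofNat 1)], Int.ofNat 0),
   ([(10, Int.ofNat 1)], Int.negSucc 83),
   ([(9, Int.ofNat 1)], Int.ofNat 0),
   ([(8, Int.ofNat 1)], Int.ofNat 0),
   ([(7, Int.ofNat 1)], Int.ofNat 0),
   ([(6, Int.ofNat 1)], Int.ofNat 0),
   ([(5, Int.ofNat 1)], Int.ofNat 0),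
   ([(4, Int.ofNat 1)], Int.ofNat 0),
   ([(3, Int.ofNat 1)], Int.ofNat 0),
   ([(2, Int.ofNat 1)], Int.ofNat 0),
   ([(1, Int.ofNat 1)], Int.ofNat 0),
   ([(0, Int.ofNat 1)], Int.ofNat 0)]

/-- letter 7 -/
def L7 : List (List (ℕ × ℤ) × ℤ) :=
  [([(35, Int.ofNat 1)], Int.ofNat 0),
   ([(34, Int.ofNat 1)], Int.ofNat 0),
   ([(33, Int.ofNat 1)], Int.ofNat 0),
   ([(32, Int.negSucc 0)], Int.negSucc 41),
   ([(31, Int.negSucc 0)], Int.ofNat 0),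
   ([(30, Int.ofNat 1)], Int.ofNat 0),
   ([(29, Int.negSucc 0)], Int.ofNat 0),
   ([(28, Int.ofNat 1)], Int.negSucc 41),
   ([(27, Int.ofNat 1)], Int.ofNat 0),
   ([(26, Int.ofNat 1)], Int.ofNat 0),
   ([(25, Int.ofNat 1)], Int.negSucc 41),
   ([(24, Int.ofNat 1)], Int.negSucc 41),
   ([(23, Int.ofNat 1)], Int.negSucc 83),
   ([(22, Int.ofNat 1)], Int.ofNat 0),
   ([(21, Int.negSucc 0)], Int.negSucc 83),
   ([(20, Int.negSucc 0)], Int.negSucc 83),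
   ([(19, Int.ofNat 1)], Int.negSucc 83),
   ([(18, Int.negSucc 0)], Int.ofNat 42),
   ([(17, Int.ofNat 1)], Int.ofNat 0),
   ([(16, Int.ofNat 1)], Int.negSucc 83),
   ([(15, Int.ofNat 1)], Int.ofNat 0),
   ([(14, Int.ofNat 1)], Int.ofNat 0),
   ([(13, Int.ofNat 1)], Int.ofNat 0),
   ([(12, Int.ofNat 1)], Int.ofNat 0),
   ([(11, Int.ofNat 1)], Int.negSucc 83),
   ([(10, Int.ofNat 1)], Int.ofNat 0),
   ([(9, Int.ofNat 1)], Int.ofNat 0),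
   ([(8, Int.ofNat 1)], Int.ofNat 0),
   ([(7, Int.ofNat 1)], Int.ofNat 0),
   ([(6, Int.ofNat 1)], Int.ofNat 0),
   ([(5, Int.ofNat 1)], Int.ofNat 0),
   ([(4, Int.ofNat 1)], Int.ofNat 0),
   ([(3, Int.ofNat 1)], Int.ofNat 0),
   ([(2, Int.ofNat 1)], Int.ofNat 0),
   ([(1, Int.ofNat 1)], Int.ofNat 0),
   ([(0, Int.ofNat 1)], Int.ofNat 0)]

/-- letter 8 -/
def L8 : List (List (ℕ × ℤ) × ℤ) :=
  [([(35, Int.negSucc 0)], Int.ofNat 0),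
   ([(34, Int.ofNat 1)], Int.ofNat 0),
   ([(33, Int.negSucc 0)], Int.ofNat 0),
   ([(32, Int.ofNat 1)], Int.negSucc 41),
   ([(31, Int.negSucc 0)], Int.negSucc 41),
   ([(30, Int.ofNat 1)], Int.negSucc 41),
   ([(29, Int.ofNat 1)], Int.negSucc 41),
   ([(28, Int.ofNat 1)], Int.ofNat 0),
   ([(27, Int.ofNat 1)], Int.ofNat 0),
   ([(26, Int.ofNat 1)], Int.ofNat 0),
   ([(25, Int.negSucc 0)], Int.ofNat 0),
   ([(24, Int.negSucc 0)], Int.ofNat 42),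
   ([(23, Int.ofNat 1)], Int.negSucc 83),
   ([(22, Int.ofNat 1)], Int.ofNat 0),
   ([(21, Int.negSucc 0)], Int.negSucc 41),
   ([(20, Int.ofNat 1)], Int.ofNat 0),
   ([(19, Int.ofNat 1)], Int.negSucc 83),
   ([(18, Int.ofNat 1)], Int.negSucc 83),
   ([(17, Int.ofNat 1)], Int.negSucc 83),
   ([(16, Int.ofNat 1)], Int.negSucc 83),
   ([(15, Int.ofNat 1)], Int.negSucc 83),
   ([(14, Int.ofNat 1)], Int.ofNat 0),
   ([(13, Int.ofNat 1)], Int.ofNat 0),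
   ([(12, Int.ofNat 1)], Int.negSucc 83),
   ([(11, Int.ofNat 1)], Int.ofNat 0),
   ([(10, Int.ofNat 1)], Int.ofNat 0),
   ([(9, Int.ofNat 1)], Int.ofNat 0),
   ([(8, Int.ofNat 1)], Int.ofNat 0),
   ([(7, Int.ofNat 1)], Int.ofNat 0),
   ([(6, Int.ofNat 1)], Int.ofNat 0),
   ([(5, Int.ofNat 1)], Int.ofNat 0),
   ([(4, Int.ofNat 1)], Int.ofNat 0),
   ([(3, Int.ofNat 1)], Int.ofNat 0),
   ([(2, Int.ofNat 1)], Int.ofNat 0),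
   ([(1, Int.ofNat 1)], Int.ofNat 0),
   ([(0, Int.ofNat 1)], Int.ofNat 0)]

/-- letter 9 -/
def L9 : List (List (ℕ × ℤ) × ℤ) :=
  [([(35, Int.negSucc 0)], Int.negSucc 41),
   ([(34, Int.ofNat 1)], Int.ofNat 0),
   ([(33, Int.ofNat 1)], Int.negSucc 125),
   ([(32, Int.ofNat 1)], Int.negSucc 83),
   ([(31, Int.ofNat 1)], Int.negSucc 41),
   ([(30, Int.negSucc 0)], Int.negSucc 83),
   ([(29, Int.negSucc 0)], Int.negSucc 125),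
   ([(28, Int.negSucc 0)], Int.negSucc 41),
   ([(27, Int.ofNat 1)], Int.ofNat 0),
   ([(26, Int.ofNat 1)], Int.negSucc 83),
   ([(25, Int.negSucc 0)], Int.negSucc 41),
   ([(24, Int.ofNat 1)], Int.negSucc 83),
   ([(23, Int.ofNat 1)], Int.ofNat 0),
   ([(22, Int.ofNat 1)], Int.ofNat 0),
   ([(21, Int.ofNat 1)], Int.ofNat 0),
   ([(20, Int.negSucc 0)], Int.negSucc 41),
   ([(19, Int.ofNat 1)], Int.negSucc 83),
   ([(18, Int.ofNat 1)], Int.negSucc 41),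
   ([(17, Int.ofNat 1)], Int.negSucc 167),
   ([(16, Int.ofNat 1)], Int.ofNat 0),
   ([(15, Int.ofNat 1)], Int.ofNat 0),
   ([(14, Int.ofNat 1)], Int.ofNat 0),
   ([(13, Int.ofNat 1)], Int.negSucc 83),
   ([(12, Int.ofNat 1)], Int.ofNat 0),
   ([(11, Int.ofNat 1)], Int.ofNat 0),
   ([(10, Int.ofNat 1)], Int.ofNat 0),
   ([(9, Int.ofNat 1)], Int.ofNat 0),
   ([(8, Int.ofNat 1)], Int.ofNat 0),
   ([(7, Int.ofNat 1)], Int.ofNat 0),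
   ([(6, Int.ofNat 1)], Int.ofNat 0),
   ([(5, Int.ofNat 1)], Int.ofNat 0),
   ([(4, Int.ofNat 1)], Int.ofNat 0),
   ([(3, Int.ofNat 1)], Int.ofNat 0),
   ([(2, Int.ofNat 1)], Int.ofNat 0),
   ([(1, Int.ofNat 1)], Int.ofNat 0),
   ([(0, Int.ofNat 1)], Int.ofNat 0)]

/-- letter 10 -/
def L10 : List (List (ℕ × ℤ) × ℤ) :=
  [([(35, Int.negSucc 0)], Int.ofNat 0),
   ([(34, Int.ofNat 1)], Int.negSucc 41),
   ([(33, Int.negSucc 0)], Int.ofNat 0),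
   ([(32, Int.ofNat 1)], Int.ofNat 0),
   ([(31, Int.ofNat 1)], Int.negSucc 41),
   ([(30, Int.ofNat 1)], Int.negSucc 41),
   ([(29, Int.negSucc 0)], Int.negSucc 41),
   ([(28, Int.ofNat 1)], Int.negSucc 83),
   ([(27, Int.negSucc 0)], Int.negSucc 41),
   ([(26, Int.ofNat 1)], Int.negSucc 83),
   ([(25, Int.negSucc 0)], Int.negSucc 125),
   ([(24, Int.ofNat 1)], Int.ofNat 0),
   ([(23, Int.negSucc 0)], Int.negSucc 41),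
   ([(22, Int.ofNat 1)], Int.negSucc 83),
   ([(21, Int.ofNat 1)], Int.negSucc 83),
   ([(20, Int.ofNat 1)], Int.ofNat 0),
   ([(19, Int.ofNat 1)], Int.ofNat 0),
   ([(18, Int.ofNat 1)], Int.negSucc 83),
   ([(17, Int.ofNat 1)], Int.ofNat 0),
   ([(16, Int.ofNat 1)], Int.negSucc 83),
   ([(15, Int.ofNat 1)], Int.ofNat 0),
   ([(14, Int.ofNat 1)], Int.negSucc 83),
   ([(13, Int.ofNat 1)], Int.ofNat 0),
   ([(12, Int.ofNat 1)], Int.ofNat 0),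
   ([(11, Int.ofNat 1)], Int.ofNat 0),
   ([(10, Int.ofNat 1)], Int.ofNat 0),
   ([(9, Int.ofNat 1)], Int.ofNat 0),
   ([(8, Int.ofNat 1)], Int.ofNat 0),
   ([(7, Int.ofNat 1)], Int.ofNat 0),
   ([(6, Int.ofNat 1)], Int.ofNat 0),
   ([(5, Int.ofNat 1)], Int.ofNat 0),
   ([(4, Int.ofNat 1)], Int.ofNat 0),
   ([(3, Int.ofNat 1)], Int.ofNat 0),
   ([(2, Int.ofNat 1)], Int.ofNat 0),
   ([(1, Int.ofNat 1)], Int.ofNat 0),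
   ([(0, Int.ofNat 1)], Int.ofNat 0)]

/-- letter 11 -/
def L11 : List (List (ℕ × ℤ) × ℤ) :=
  [([(35, Int.ofNat 1)], Int.negSucc 41),
   ([(32, Int.ofNat 1)], Int.negSucc 41),
   ([(33, Int.negSucc 0)], Int.negSucc 83),
   ([(34, Int.negSucc 0)], Int.ofNat 0),
   ([(29, Int.ofNat 1)], Int.ofNat 0),
   ([(30, Int.negSucc 0)], Int.negSucc 83),
   ([(31, Int.negSucc 0)], Int.ofNat 0),
   ([(26, Int.ofNat 1)], Int.ofNat 0),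
   ([(24, Int.ofNat 1)], Int.ofNat 0),
   ([(28, Int.ofNat 1)], Int.negSucc 41),
   ([(25, Int.ofNat 1)], Int.negSucc 20),
   ([(27, Int.ofNat 1)], Int.ofNat 42),
   ([(21, Int.ofNat 1)], Int.negSucc 167),
   ([(22, Int.ofNat 1)], Int.negSucc 20),
   ([(23, Int.negSucc 0)], Int.ofNat 84),
   ([(19, Int.ofNat 1)], Int.ofNat 0),
   ([(20, Int.negSucc 0)], Int.ofNat 0),
   ([(17, Int.ofNat 1)], Int.negSucc 41),
   ([(18, Int.negSucc 0)], Int.negSucc 83),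
   ([(15, Int.ofNat 1)], Int.negSucc 167),
   ([(16, Int.negSucc 0)], Int.ofNat 0),
   ([(12, Int.ofNat 1)], Int.negSucc 23),
   ([(13, Int.ofNat 1)], Int.ofNat 0),
   ([(14, Int.ofNat 1)], Int.ofNat 24),
   ([(10, Int.ofNat 1)], Int.negSucc 47),
   ([(11, Int.ofNat 1)], Int.ofNat 48),
   ([(9, Int.negSucc 0), (13, Int.negSucc 0)], Int.negSucc 59),
   ([(7, Int.ofNat 1)], Int.ofNat 36),
   ([(8, Int.ofNat 1)], Int.negSucc 35),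
   ([(6, Int.ofNat 1)], Int.negSucc 41),
   ([(5, Int.negSucc 0)], Int.ofNat 14),
   ([(2, Int.ofNat 1)], Int.negSucc 13),
   ([(3, Int.negSucc 0)], Int.negSucc 27),
   ([(4, Int.ofNat 1)], Int.negSucc 69),
   ([(0, Int.ofNat 1)], Int.negSucc 41),
   ([(1, Int.ofNat 1)], Int.ofNat 42)]

/-- letter 12 -/
def L12 : List (List (ℕ × ℤ) × ℤ) :=
  [([(31, Int.ofNat 1)], Int.negSucc 41),
   ([(34, Int.ofNat 1)], Int.ofNat 21),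
   ([(29, Int.ofNat 1)], Int.negSucc 83),
   ([(28, Int.ofNat 1)], Int.negSucc 20),
   ([(32, Int.ofNat 1)], Int.ofNat 0),
   ([(25, Int.ofNat 1)], Int.negSucc 83),
   ([(24, Int.ofNat 1)], Int.ofNat 0),
   ([(35, Int.negSucc 0)], Int.ofNat 21),
   ([(23, Int.ofNat 1)], Int.ofNat 0),
   ([(22, Int.ofNat 1)], Int.ofNat 0),
   ([(21, Int.ofNat 1)], Int.ofNat 0),
   ([(20, Int.ofNat 1)], Int.negSucc 62),
   ([(27, Int.negSucc 0)], Int.ofNat 84),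
   ([(19, Int.ofNat 1)], Int.negSucc 41),
   ([(18, Int.ofNat 1)], Int.negSucc 83),
   ([(33, Int.ofNat 1)], Int.negSucc 62),
   ([(16, Int.ofNat 1)], Int.negSucc 83),
   ([(30, Int.negSucc 0)], Int.ofNat 0),
   ([(15, Int.ofNat 1)], Int.negSucc 20),
   ([(26, Int.negSucc 0)], Int.ofNat 84),
   ([(17, Int.ofNat 1)], Int.ofNat 0),
   ([(14, Int.negSucc 0)], Int.ofNat 0),
   ([(12, Int.negSucc 0), (13, Int.ofNat 1), (14, Int.negSucc 0)], Int.negSucc 11),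
   ([(11, Int.ofNat 1), (13, Int.ofNat 1)], Int.negSucc 83),
   ([(13, Int.negSucc 0)], Int.ofNat 72),
   ([(7, Int.ofNat 1)], Int.ofNat 24),
   ([(7, Int.ofNat 1), (8, Int.ofNat 1)], Int.ofNat 48),
   ([(9, Int.negSucc 0)], Int.negSucc 23),
   ([(10, Int.ofNat 1)], Int.negSucc 23),
   ([(2, Int.negSucc 0), (6, Int.negSucc 0)], Int.ofNat 28),
   ([(3, Int.ofNat 1), (4, Int.ofNat 1)], Int.negSucc 27),
   ([(3, Int.ofNat 1)], Int.negSucc 27),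
   ([(3, Int.negSucc 0), (5, Int.negSucc 0)], Int.negSucc 41),
   ([(0, Int.negSucc 0), (6, Int.ofNat 1)], Int.negSucc 13),
   ([(1, Int.ofNat 1), (5, Int.ofNat 1)], Int.negSucc 13),
   ([(6, Int.negSucc 0)], Int.ofNat 28)]

/-- letter 13 -/
def L13 : List (List (ℕ × ℤ) × ℤ) :=
  [([(35, Int.negSucc 0)], Int.negSucc 41),
   ([(34, Int.negSucc 0)], Int.negSucc 41),
   ([(33, Int.ofNat 1)], Int.ofNat 42),
   ([(32, Int.ofNat 1)], Int.ofNat 84),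
   ([(31, Int.ofNat 1)], Int.ofNat 42),
   ([(30, Int.negSucc 0)], Int.negSucc 83),
   ([(29, Int.negSucc 0)], Int.negSucc 41),
   ([(28, Int.negSucc 0)], Int.negSucc 41),
   ([(27, Int.ofNat 1)], Int.ofNat 42),
   ([(26, Int.negSucc 0)], Int.negSucc 83),
   ([(25, Int.negSucc 0)], Int.negSucc 41),
   ([(24, Int.ofNat 1)], Int.ofNat 0),
   ([(23, Int.negSucc 0)], Int.negSucc 167),
   ([(22, Int.negSucc 0)], Int.ofNat 0),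
   ([(21, Int.ofNat 1)], Int.ofNat 0),
   ([(20, Int.negSucc 0)], Int.negSucc 125),
   ([(19, Int.ofNat 1)], Int.ofNat 42),
   ([(18, Int.ofNat 1)], Int.ofNat 42),
   ([(17, Int.negSucc 0)], Int.negSucc 83),
   ([(16, Int.ofNat 1)], Int.ofNat 126),
   ([(15, Int.negSucc 0)], Int.ofNat 42),
   ([(14, Int.ofNat 1)], Int.ofNat 0),
   ([(13, Int.ofNat 1)], Int.ofNat 0),
   ([(12, Int.ofNat 1)], Int.ofNat 0),
   ([(11, Int.ofNat 1)], Int.ofNat 0),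
   ([(10, Int.ofNat 1)], Int.ofNat 0),
   ([(9, Int.ofNat 1)], Int.ofNat 0),
   ([(8, Int.ofNat 1)], Int.ofNat 0),
   ([(7, Int.ofNat 1)], Int.ofNat 0),
   ([(6, Int.ofNat 1)], Int.ofNat 0),
   ([(5, Int.ofNat 1)], Int.ofNat 0),
   ([(4, Int.ofNat 1)], Int.ofNat 0),
   ([(3, Int.ofNat 1)], Int.ofNat 0),
   ([(2, Int.ofNat 1)], Int.ofNat 0),
   ([(1, Int.ofNat 1)], Int.ofNat 0),
   ([(0, Int.ofNat 1)], Int.ofNat 84)]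

/-- letter 14 -/
def L14 : List (List (ℕ × ℤ) × ℤ) :=
  [([(35, Int.negSucc 0)], Int.negSucc 41),
   ([(34, Int.ofNat 1)], Int.ofNat 0),
   ([(33, Int.ofNat 1)], Int.ofNat 42),
   ([(32, Int.negSucc 0)], Int.negSucc 41),
   ([(31, Int.negSucc 0)], Int.negSucc 41),
   ([(30, Int.negSucc 0)], Int.negSucc 83),
   ([(29, Int.ofNat 1)], Int.ofNat 42),
   ([(28, Int.negSucc 0)], Int.ofNat 0),
   ([(27, Int.ofNat 1)], Int.ofNat 0),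
   ([(26, Int.negSucc 0)], Int.negSucc 41),
   ([(25, Int.negSucc 0)], Int.ofNat 0),
   ([(24, Int.ofNat 1)], Int.negSucc 41),
   ([(23, Int.ofNat 1)], Int.ofNat 0),
   ([(22, Int.negSucc 0)], Int.negSucc 41),
   ([(21, Int.negSucc 0)], Int.ofNat 0),
   ([(20, Int.ofNat 1)], Int.ofNat 42),
   ([(19, Int.negSucc 0)], Int.ofNat 42),
   ([(18, Int.negSucc 0)], Int.ofNat 0),
   ([(17, Int.ofNat 1)], Int.ofNat 42),
   ([(16, Int.negSucc 0)], Int.negSucc 125),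
   ([(15, Int.ofNat 1)], Int.ofNat 126),
   ([(14, Int.ofNat 1)], Int.ofNat 0),
   ([(13, Int.ofNat 1)], Int.ofNat 0),
   ([(12, Int.ofNat 1)], Int.ofNat 0),
   ([(11, Int.ofNat 1)], Int.ofNat 0),
   ([(10, Int.ofNat 1)], Int.ofNat 0),
   ([(9, Int.ofNat 1)], Int.ofNat 0),
   ([(8, Int.ofNat 1)], Int.ofNat 0),
   ([(7, Int.ofNat 1)], Int.ofNat 0),
   ([(6, Int.ofNat 1)], Int.ofNat 0),
   ([(5, Int.ofNat 1)], Int.ofNat 0),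
   ([(4, Int.ofNat 1)], Int.ofNat 0),
   ([(3, Int.ofNat 1)], Int.ofNat 0),
   ([(2, Int.ofNat 1)], Int.ofNat 0),
   ([(1, Int.ofNat 1)], Int.ofNat 84),
   ([(0, Int.ofNat 1)], Int.ofNat 0)]

/-- letter 15 -/
def L15 : List (List (ℕ × ℤ) × ℤ) :=
  [([(35, Int.ofNat 1)], Int.ofNat 42),
   ([(34, Int.negSucc 0)], Int.ofNat 0),
   ([(33, Int.negSucc 0)], Int.negSucc 41),
   ([(32, Int.negSucc 0)], Int.ofNat 0),
   ([(31, Int.ofNat 1)], Int.ofNat 0),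
   ([(30, Int.negSucc 0)], Int.negSucc 41),
   ([(29, Int.ofNat 1)], Int.ofNat 84),
   ([(28, Int.negSucc 0)], Int.ofNat 0),
   ([(27, Int.negSucc 0)], Int.ofNat 0),
   ([(26, Int.negSucc 0)], Int.ofNat 0),
   ([(25, Int.ofNat 1)], Int.ofNat 84),
   ([(24, Int.negSucc 0)], Int.ofNat 0),
   ([(23, Int.ofNat 1)], Int.negSucc 41),
   ([(22, Int.ofNat 1)], Int.ofNat 42),
   ([(21, Int.ofNat 1)], Int.negSucc 41),
   ([(20, Int.ofNat 1)], Int.negSucc 41),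
   ([(19, Int.ofNat 1)], Int.negSucc 41),
   ([(18, Int.negSucc 0)], Int.ofNat 0),
   ([(17, Int.negSucc 0)], Int.ofNat 0),
   ([(16, Int.negSucc 0)], Int.negSucc 83),
   ([(15, Int.negSucc 0)], Int.negSucc 83),
   ([(14, Int.ofNat 1)], Int.ofNat 0),
   ([(13, Int.ofNat 1)], Int.ofNat 0),
   ([(12, Int.ofNat 1)], Int.ofNat 0),
   ([(11, Int.ofNat 1)], Int.ofNat 0),
   ([(10, Int.ofNat 1)], Int.ofNat 0),
   ([(9, Int.ofNat 1)], Int.ofNat 0),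
   ([(8, Int.ofNat 1)], Int.ofNat 0),
   ([(7, Int.ofNat 1)], Int.ofNat 0),
   ([(6, Int.ofNat 1)], Int.ofNat 0),
   ([(5, Int.ofNat 1)], Int.ofNat 0),
   ([(4, Int.ofNat 1)], Int.ofNat 0),
   ([(3, Int.ofNat 1)], Int.ofNat 0),
   ([(2, Int.ofNat 1)], Int.ofNat 84),
   ([(1, Int.ofNat 1)], Int.ofNat 0),
   ([(0, Int.ofNat 1)], Int.ofNat 0)]

/-- letter 16 -/
def L16 : List (List (ℕ × ℤ) × ℤ) :=
  [([(35, Int.negSucc 0)], Int.ofNat 0),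
   ([(34, Int.negSucc 0)], Int.ofNat 0),
   ([(33, Int.negSucc 0)], Int.ofNat 0),
   ([(32, Int.ofNat 1)], Int.ofNat 0),
   ([(31, Int.ofNat 1)], Int.ofNat 0),
   ([(30, Int.ofNat 1)], Int.ofNat 42),
   ([(29, Int.ofNat 1)], Int.ofNat 0),
   ([(28, Int.ofNat 1)], Int.ofNat 0),
   ([(27, Int.negSucc 0)], Int.ofNat 0),
   ([(26, Int.ofNat 1)], Int.ofNat 0),
   ([(25, Int.ofNat 1)], Int.ofNat 84),
   ([(24, Int.ofNat 1)], Int.ofNat 84),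
   ([(23, Int.ofNat 1)], Int.ofNat 126),
   ([(22, Int.negSucc 0)], Int.ofNat 0),
   ([(21, Int.ofNat 1)], Int.ofNat 84),
   ([(20, Int.ofNat 1)], Int.ofNat 84),
   ([(19, Int.ofNat 1)], Int.ofNat 84),
   ([(18, Int.ofNat 1)], Int.ofNat 0),
   ([(17, Int.ofNat 1)], Int.ofNat 84),
   ([(16, Int.ofNat 1)], Int.ofNat 42),
   ([(15, Int.negSucc 0)], Int.ofNat 42),
   ([(14, Int.ofNat 1)], Int.ofNat 0),
   ([(13, Int.ofNat 1)], Int.ofNat 0),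
   ([(12, Int.ofNat 1)], Int.ofNat 0),
   ([(11, Int.ofNat 1)], Int.ofNat 0),
   ([(10, Int.ofNat 1)], Int.ofNat 0),
   ([(9, Int.ofNat 1)], Int.ofNat 0),
   ([(8, Int.ofNat 1)], Int.ofNat 0),
   ([(7, Int.ofNat 1)], Int.ofNat 84),
   ([(6, Int.ofNat 1)], Int.ofNat 0),
   ([(5, Int.ofNat 1)], Int.ofNat 0),
   ([(4, Int.ofNat 1)], Int.ofNat 0),
   ([(3, Int.ofNat 1)], Int.ofNat 0),
   ([(2, Int.ofNat 1)], Int.ofNat 0),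
   ([(1, Int.ofNat 1)], Int.ofNat 0),
   ([(0, Int.ofNat 1)], Int.ofNat 0)]

/-- letter 17 -/
def L17 : List (List (ℕ × ℤ) × ℤ) :=
  [([(35, Int.negSucc 0)], Int.ofNat 0),
   ([(34, Int.ofNat 1)], Int.ofNat 0),
   ([(33, Int.negSucc 0)], Int.ofNat 0),
   ([(32, Int.negSucc 0)], Int.ofNat 0),
   ([(31, Int.ofNat 1)], Int.ofNat 0),
   ([(30, Int.ofNat 1)], Int.ofNat 42),
   ([(29, Int.ofNat 1)], Int.ofNat 84),
   ([(28, Int.ofNat 1)], Int.ofNat 0),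
   ([(27, Int.ofNat 1)], Int.ofNat 0),
   ([(26, Int.ofNat 1)], Int.ofNat 0),
   ([(25, Int.ofNat 1)], Int.ofNat 0),
   ([(24, Int.negSucc 0)], Int.negSucc 83),
   ([(23, Int.ofNat 1)], Int.ofNat 84),
   ([(22, Int.negSucc 0)], Int.negSucc 41),
   ([(21, Int.ofNat 1)], Int.ofNat 42),
   ([(20, Int.ofNat 1)], Int.ofNat 84),
   ([(19, Int.ofNat 1)], Int.ofNat 0),
   ([(18, Int.ofNat 1)], Int.ofNat 0),
   ([(17, Int.ofNat 1)], Int.ofNat 0),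
   ([(16, Int.negSucc 0)], Int.negSucc 41),
   ([(15, Int.ofNat 1)], Int.ofNat 126),
   ([(14, Int.ofNat 1)], Int.ofNat 0),
   ([(13, Int.ofNat 1)], Int.ofNat 0),
   ([(12, Int.ofNat 1)], Int.ofNat 0),
   ([(11, Int.ofNat 1)], Int.ofNat 0),
   ([(10, Int.ofNat 1)], Int.ofNat 0),
   ([(9, Int.ofNat 1)], Int.ofNat 0),
   ([(8, Int.ofNat 1)], Int.ofNat 84),
   ([(7, Int.ofNat 1)], Int.ofNat 0),
   ([(6, Int.ofNat 1)], Int.ofNat 0),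
   ([(5, Int.ofNat 1)], Int.ofNat 0),
   ([(4, Int.ofNat 1)], Int.ofNat 0),
   ([(3, Int.ofNat 1)], Int.ofNat 0),
   ([(2, Int.ofNat 1)], Int.ofNat 0),
   ([(1, Int.ofNat 1)], Int.ofNat 0),
   ([(0, Int.ofNat 1)], Int.ofNat 0)]

/-- letter 18 -/
def L18 : List (List (ℕ × ℤ) × ℤ) :=
  [([(35, Int.ofNat 1)], Int.ofNat 0),
   ([(34, Int.ofNat 1)], Int.ofNat 0),
   ([(33, Int.ofNat 1)], Int.ofNat 0),
   ([(32, Int.ofNat 1)], Int.ofNat 0),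
   ([(31, Int.negSucc 0)], Int.ofNat 0),
   ([(30, Int.ofNat 1)], Int.ofNat 0),
   ([(29, Int.negSucc 0)], Int.ofNat 0),
   ([(28, Int.negSucc 0)], Int.negSucc 41),
   ([(27, Int.ofNat 1)], Int.ofNat 0),
   ([(26, Int.negSucc 0)], Int.negSucc 41),
   ([(25, Int.ofNat 1)], Int.ofNat 126),
   ([(24, Int.ofNat 1)], Int.ofNat 84),
   ([(23, Int.ofNat 1)], Int.ofNat 0),
   ([(22, Int.ofNat 1)], Int.ofNat 0),
   ([(21, Int.ofNat 1)], Int.ofNat 0),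
   ([(20, Int.negSucc 0)], Int.negSucc 41),
   ([(19, Int.negSucc 0)], Int.negSucc 125),
   ([(18, Int.ofNat 1)], Int.ofNat 126),
   ([(17, Int.ofNat 1)], Int.ofNat 126),
   ([(16, Int.ofNat 1)], Int.ofNat 84),
   ([(15, Int.ofNat 1)], Int.ofNat 0),
   ([(14, Int.ofNat 1)], Int.ofNat 0),
   ([(13, Int.ofNat 1)], Int.ofNat 0),
   ([(12, Int.ofNat 1)], Int.ofNat 0),
   ([(11, Int.ofNat 1)], Int.ofNat 0),
   ([(10, Int.ofNat 1)], Int.ofNat 0),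
   ([(9, Int.ofNat 1)], Int.ofNat 84),
   ([(8, Int.ofNat 1)], Int.ofNat 0),
   ([(7, Int.ofNat 1)], Int.ofNat 0),
   ([(6, Int.ofNat 1)], Int.ofNat 0),
   ([(5, Int.ofNat 1)], Int.ofNat 0),
   ([(4, Int.ofNat 1)], Int.ofNat 0),
   ([(3, Int.ofNat 1)], Int.ofNat 0),
   ([(2, Int.ofNat 1)], Int.ofNat 0),
   ([(1, Int.ofNat 1)], Int.ofNat 0),
   ([(0, Int.ofNat 1)], Int.ofNat 0)]

/-- letter 19 -/
def L19 : List (List (ℕ × ℤ) × ℤ) :=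
  [([(35, Int.ofNat 1)], Int.ofNat 0),
   ([(34, Int.negSucc 0)], Int.negSucc 41),
   ([(33, Int.ofNat 1)], Int.ofNat 0),
   ([(32, Int.ofNat 1)], Int.ofNat 0),
   ([(31, Int.negSucc 0)], Int.ofNat 0),
   ([(30, Int.ofNat 1)], Int.ofNat 0),
   ([(29, Int.negSucc 0)], Int.ofNat 0),
   ([(28, Int.ofNat 1)], Int.ofNat 84),
   ([(27, Int.ofNat 1)], Int.ofNat 126),
   ([(26, Int.ofNat 1)], Int.ofNat 126),
   ([(25, Int.ofNat 1)], Int.ofNat 42),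
   ([(24, Int.ofNat 1)], Int.ofNat 0),
   ([(23, Int.negSucc 0)], Int.ofNat 0),
   ([(22, Int.ofNat 1)], Int.ofNat 84),
   ([(21, Int.ofNat 1)], Int.ofNat 84),
   ([(20, Int.ofNat 1)], Int.ofNat 0),
   ([(19, Int.negSucc 0)], Int.ofNat 0),
   ([(18, Int.ofNat 1)], Int.ofNat 84),
   ([(17, Int.negSucc 0)], Int.negSucc 125),
   ([(16, Int.ofNat 1)], Int.ofNat 84),
   ([(15, Int.ofNat 1)], Int.ofNat 0),
   ([(14, Int.ofNat 1)], Int.ofNat 0),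
   ([(13, Int.ofNat 1)], Int.ofNat 0),
   ([(12, Int.ofNat 1)], Int.ofNat 0),
   ([(11, Int.ofNat 1)], Int.ofNat 0),
   ([(10, Int.ofNat 1)], Int.ofNat 84),
   ([(9, Int.ofNat 1)], Int.ofNat 0),
   ([(8, Int.ofNat 1)], Int.ofNat 0),
   ([(7, Int.ofNat 1)], Int.ofNat 0),
   ([(6, Int.ofNat 1)], Int.ofNat 0),
   ([(5, Int.ofNat 1)], Int.ofNat 0),
   ([(4, Int.ofNat 1)], Int.ofNat 0),
   ([(3, Int.ofNat 1)], Int.ofNat 0),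
   ([(2, Int.ofNat 1)], Int.ofNat 0),
   ([(1, Int.ofNat 1)], Int.ofNat 0),
   ([(0, Int.ofNat 1)], Int.ofNat 0)]

/-- letter 20 -/
def L20 : List (List (ℕ × ℤ) × ℤ) :=
  [([(35, Int.ofNat 1)], Int.ofNat 0),
   ([(34, Int.ofNat 1)], Int.ofNat 0),
   ([(33, Int.ofNat 1)], Int.ofNat 0),
   ([(32, Int.negSucc 0)], Int.negSucc 41),
   ([(31, Int.negSucc 0)], Int.ofNat 0),
   ([(30, Int.ofNat 1)], Int.ofNat 0),
   ([(29, Int.negSucc 0)], Int.ofNat 0),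
   ([(28, Int.ofNat 1)], Int.ofNat 42),
   ([(27, Int.ofNat 1)], Int.ofNat 0),
   ([(26, Int.ofNat 1)], Int.ofNat 0),
   ([(25, Int.ofNat 1)], Int.ofNat 42),
   ([(24, Int.ofNat 1)], Int.ofNat 42),
   ([(23, Int.ofNat 1)], Int.ofNat 84),
   ([(22, Int.ofNat 1)], Int.ofNat 0),
   ([(21, Int.negSucc 0)], Int.negSucc 83),
   ([(20, Int.negSucc 0)], Int.negSucc 83),
   ([(19, Int.ofNat 1)], Int.ofNat 84),
   ([(18, Int.negSucc 0)], Int.ofNat 42),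
   ([(17, Int.ofNat 1)], Int.ofNat 0),
   ([(16, Int.ofNat 1)], Int.ofNat 84),
   ([(15, Int.ofNat 1)], Int.ofNat 0),
   ([(14, Int.ofNat 1)], Int.ofNat 0),
   ([(13, Int.ofNat 1)], Int.ofNat 0),
   ([(12, Int.ofNat 1)], Int.ofNat 0),
   ([(11, Int.ofNat 1)], Int.ofNat 84),
   ([(10, Int.ofNat 1)], Int.ofNat 0),
   ([(9, Int.ofNat 1)], Int.ofNat 0),
   ([(8, Int.ofNat 1)], Int.ofNat 0),
   ([(7, Int.ofNat 1)], Int.ofNat 0),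
   ([(6, Int.ofNat 1)], Int.ofNat 0),
   ([(5, Int.ofNat 1)], Int.ofNat 0),
   ([(4, Int.ofNat 1)], Int.ofNat 0),
   ([(3, Int.ofNat 1)], Int.ofNat 0),
   ([(2, Int.ofNat 1)], Int.ofNat 0),
   ([(1, Int.ofNat 1)], Int.ofNat 0),
   ([(0, Int.ofNat 1)], Int.ofNat 0)]

/-- letter 21 -/
def L21 : List (List (ℕ × ℤ) × ℤ) :=
  [([(35, Int.negSucc 0)], Int.ofNat 0),
   ([(34, Int.ofNat 1)], Int.ofNat 0),
   ([(33, Int.negSucc 0)], Int.ofNat 0),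
   ([(32, Int.ofNat 1)], Int.ofNat 42),
   ([(31, Int.negSucc 0)], Int.negSucc 41),
   ([(30, Int.ofNat 1)], Int.ofNat 42),
   ([(29, Int.ofNat 1)], Int.ofNat 42),
   ([(28, Int.ofNat 1)], Int.ofNat 0),
   ([(27, Int.ofNat 1)], Int.ofNat 0),
   ([(26, Int.ofNat 1)], Int.ofNat 0),
   ([(25, Int.negSucc 0)], Int.ofNat 0),
   ([(24, Int.negSucc 0)], Int.ofNat 42),
   ([(23, Int.ofNat 1)], Int.ofNat 84),
   ([(22, Int.ofNat 1)], Int.ofNat 0),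
   ([(21, Int.negSucc 0)], Int.negSucc 41),
   ([(20, Int.ofNat 1)], Int.ofNat 0),
   ([(19, Int.ofNat 1)], Int.ofNat 84),
   ([(18, Int.ofNat 1)], Int.ofNat 84),
   ([(17, Int.ofNat 1)], Int.ofNat 84),
   ([(16, Int.ofNat 1)], Int.ofNat 84),
   ([(15, Int.ofNat 1)], Int.ofNat 84),
   ([(14, Int.ofNat 1)], Int.ofNat 0),
   ([(13, Int.ofNat 1)], Int.ofNat 0),
   ([(12, Int.ofNat 1)], Int.ofNat 84),
   ([(11, Int.ofNat 1)], Int.ofNat 0),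
   ([(10, Int.ofNat 1)], Int.ofNat 0),
   ([(9, Int.ofNat 1)], Int.ofNat 0),
   ([(8, Int.ofNat 1)], Int.ofNat 0),
   ([(7, Int.ofNat 1)], Int.ofNat 0),
   ([(6, Int.ofNat 1)], Int.ofNat 0),
   ([(5, Int.ofNat 1)], Int.ofNat 0),
   ([(4, Int.ofNat 1)], Int.ofNat 0),
   ([(3, Int.ofNat 1)], Int.ofNat 0),
   ([(2, Int.ofNat 1)], Int.ofNat 0),
   ([(1, Int.ofNat 1)], Int.ofNat 0),
   ([(0, Int.ofNat 1)], Int.ofNat 0)]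

/-- letter 22 -/
def L22 : List (List (ℕ × ℤ) × ℤ) :=
  [([(35, Int.negSucc 0)], Int.negSucc 41),
   ([(34, Int.ofNat 1)], Int.ofNat 0),
   ([(33, Int.ofNat 1)], Int.ofNat 126),
   ([(32, Int.ofNat 1)], Int.ofNat 84),
   ([(31, Int.ofNat 1)], Int.ofNat 42),
   ([(30, Int.negSucc 0)], Int.negSucc 83),
   ([(29, Int.negSucc 0)], Int.negSucc 125),
   ([(28, Int.negSucc 0)], Int.negSucc 41),
   ([(27, Int.ofNat 1)], Int.ofNat 0),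
   ([(26, Int.ofNat 1)], Int.ofNat 84),
   ([(25, Int.negSucc 0)], Int.negSucc 41),
   ([(24, Int.ofNat 1)], Int.ofNat 84),
   ([(23, Int.ofNat 1)], Int.ofNat 0),
   ([(22, Int.ofNat 1)], Int.ofNat 0),
   ([(21, Int.ofNat 1)], Int.ofNat 0),
   ([(20, Int.negSucc 0)], Int.negSucc 41),
   ([(19, Int.ofNat 1)], Int.ofNat 84),
   ([(18, Int.ofNat 1)], Int.ofNat 42),
   ([(17, Int.ofNat 1)], Int.ofNat 168),
   ([(16, Int.ofNat 1)], Int.ofNat 0),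
   ([(15, Int.ofNat 1)], Int.ofNat 0),
   ([(14, Int.ofNat 1)], Int.ofNat 0),
   ([(13, Int.ofNat 1)], Int.ofNat 84),
   ([(12, Int.ofNat 1)], Int.ofNat 0),
   ([(11, Int.ofNat 1)], Int.ofNat 0),
   ([(10, Int.ofNat 1)], Int.ofNat 0),
   ([(9, Int.ofNat 1)], Int.ofNat 0),
   ([(8, Int.ofNat 1)], Int.ofNat 0),
   ([(7, Int.ofNat 1)], Int.ofNat 0),
   ([(6, Int.ofNat 1)], Int.ofNat 0),
   ([(5, Int.ofNat 1)], Int.ofNat 0),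
   ([(4, Int.ofNat 1)], Int.ofNat 0),
   ([(3, Int.ofNat 1)], Int.ofNat 0),
   ([(2, Int.ofNat 1)], Int.ofNat 0),
   ([(1, Int.ofNat 1)], Int.ofNat 0),
   ([(0, Int.ofNat 1)], Int.ofNat 0)]

/-- letter 23 -/
def L23 : List (List (ℕ × ℤ) × ℤ) :=
  [([(35, Int.negSucc 0)], Int.ofNat 0),
   ([(34, Int.ofNat 1)], Int.ofNat 42),
   ([(33, Int.negSucc 0)], Int.ofNat 0),
   ([(32, Int.ofNat 1)], Int.ofNat 0),
   ([(31, Int.ofNat 1)], Int.ofNat 42),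
   ([(30, Int.ofNat 1)], Int.ofNat 42),
   ([(29, Int.negSucc 0)], Int.negSucc 41),
   ([(28, Int.ofNat 1)], Int.ofNat 84),
   ([(27, Int.negSucc 0)], Int.negSucc 41),
   ([(26, Int.ofNat 1)], Int.ofNat 84),
   ([(25, Int.negSucc 0)], Int.negSucc 125),
   ([(24, Int.ofNat 1)], Int.ofNat 0),
   ([(23, Int.negSucc 0)], Int.negSucc 41),
   ([(22, Int.ofNat 1)], Int.ofNat 84),
   ([(21, Int.ofNat 1)], Int.ofNat 84),
   ([(20, Int.ofNat 1)], Int.ofNat 0),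
   ([(19, Int.ofNat 1)], Int.ofNat 0),
   ([(18, Int.ofNat 1)], Int.ofNat 84),
   ([(17, Int.ofNat 1)], Int.ofNat 0),
   ([(16, Int.ofNat 1)], Int.ofNat 84),
   ([(15, Int.ofNat 1)], Int.ofNat 0),
   ([(14, Int.ofNat 1)], Int.ofNat 84),
   ([(13, Int.ofNat 1)], Int.ofNat 0),
   ([(12, Int.ofNat 1)], Int.ofNat 0),
   ([(11, Int.ofNat 1)], Int.ofNat 0),
   ([(10, Int.ofNat 1)], Int.ofNat 0),
   ([(9, Int.ofNat 1)], Int.ofNat 0),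
   ([(8, Int.ofNat 1)], Int.ofNat 0),
   ([(7, Int.ofNat 1)], Int.ofNat 0),
   ([(6, Int.ofNat 1)], Int.ofNat 0),
   ([(5, Int.ofNat 1)], Int.ofNat 0),
   ([(4, Int.ofNat 1)], Int.ofNat 0),
   ([(3, Int.ofNat 1)], Int.ofNat 0),
   ([(2, Int.ofNat 1)], Int.ofNat 0),
   ([(1, Int.ofNat 1)], Int.ofNat 0),
   ([(0, Int.ofNat 1)], Int.ofNat 0)]

/-- letter 24 -/
def L24 : List (List (ℕ × ℤ) × ℤ) :=
  [([(35, Int.ofNat 1)], Int.ofNat 42),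
   ([(32, Int.negSucc 0)], Int.ofNat 0),
   ([(33, Int.negSucc 0)], Int.negSucc 83),
   ([(34, Int.ofNat 1)], Int.ofNat 42),
   ([(29, Int.negSucc 0)], Int.ofNat 0),
   ([(30, Int.negSucc 0)], Int.negSucc 83),
   ([(31, Int.ofNat 1)], Int.ofNat 0),
   ([(26, Int.ofNat 1)], Int.ofNat 42),
   ([(24, Int.ofNat 1)], Int.negSucc 41),
   ([(28, Int.ofNat 1)], Int.ofNat 0),
   ([(25, Int.ofNat 1)], Int.ofNat 21),
   ([(27, Int.ofNat 1)], Int.ofNat 0),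
   ([(21, Int.negSucc 0)], Int.ofNat 84),
   ([(22, Int.ofNat 1)], Int.ofNat 21),
   ([(23, Int.ofNat 1)], Int.ofNat 168),
   ([(19, Int.negSucc 0)], Int.ofNat 0),
   ([(20, Int.ofNat 1)], Int.ofNat 0),
   ([(17, Int.negSucc 0)], Int.negSucc 83),
   ([(18, Int.ofNat 1)], Int.ofNat 42),
   ([(15, Int.negSucc 0)], Int.ofNat 0),
   ([(16, Int.ofNat 1)], Int.ofNat 168),
   ([(12, Int.ofNat 1)], Int.negSucc 23),
   ([(13, Int.ofNat 1)], Int.ofNat 0),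
   ([(14, Int.ofNat 1)], Int.ofNat 24),
   ([(10, Int.ofNat 1)], Int.negSucc 47),
   ([(11, Int.ofNat 1)], Int.ofNat 48),
   ([(9, Int.negSucc 0), (13, Int.negSucc 0)], Int.negSucc 59),
   ([(7, Int.ofNat 1)], Int.ofNat 36),
   ([(8, Int.ofNat 1)], Int.negSucc 35),
   ([(6, Int.ofNat 1)], Int.ofNat 42),
   ([(5, Int.negSucc 0)], Int.ofNat 14),
   ([(2, Int.ofNat 1)], Int.ofNat 70),
   ([(3, Int.negSucc 0)], Int.negSucc 27),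
   ([(4, Int.ofNat 1)], Int.ofNat 14),
   ([(0, Int.ofNat 1)], Int.negSucc 41),
   ([(1, Int.ofNat 1)], Int.ofNat 42)]

/-- letter 25 -/
def L25 : List (List (ℕ × ℤ) × ℤ) :=
  [([(28, Int.negSucc 0)], Int.ofNat 21),
   ([(34, Int.ofNat 1)], Int.negSucc 20),
   ([(20, Int.ofNat 1)], Int.ofNat 63),
   ([(31, Int.ofNat 1)], Int.ofNat 0),
   ([(35, Int.ofNat 1)], Int.ofNat 42),
   ([(18, Int.negSucc 0)], Int.ofNat 0),
   ([(33, Int.ofNat 1)], Int.ofNat 84),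
   ([(32, Int.ofNat 1)], Int.ofNat 21),
   ([(23, Int.negSucc 0)], Int.ofNat 84),
   ([(16, Int.negSucc 0)], Int.ofNat 84),
   ([(30, Int.ofNat 1)], Int.ofNat 84),
   ([(29, Int.ofNat 1)], Int.ofNat 0),
   ([(27, Int.ofNat 1)], Int.ofNat 0),
   ([(26, Int.ofNat 1)], Int.ofNat 0),
   ([(25, Int.ofNat 1)], Int.ofNat 0),
   ([(24, Int.ofNat 1)], Int.ofNat 63),
   ([(22, Int.ofNat 1)], Int.ofNat 42),
   ([(21, Int.ofNat 1)], Int.ofNat 84),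
   ([(15, Int.ofNat 1)], Int.ofNat 0),
   ([(19, Int.ofNat 1)], Int.ofNat 84),
   ([(17, Int.ofNat 1)], Int.ofNat 21),
   ([(14, Int.negSucc 0)], Int.ofNat 0),
   ([(11, Int.negSucc 0)], Int.ofNat 72),
   ([(11, Int.negSucc 0), (13, Int.negSucc 0), (14, Int.ofNat 1)], Int.ofNat 60),
   ([(11, Int.ofNat 1), (12, Int.ofNat 1)], Int.ofNat 12),
   ([(7, Int.ofNat 1)], Int.ofNat 24),
   ([(8, Int.negSucc 0)], Int.negSucc 23),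
   ([(9, Int.ofNat 1), (10, Int.negSucc 0)], Int.negSucc 23),
   ([(10, Int.ofNat 1)], Int.negSucc 23),
   ([(0, Int.negSucc 0)], Int.ofNat 28),
   ([(3, Int.negSucc 0), (4, Int.negSucc 0)], Int.negSucc 69),
   ([(4, Int.negSucc 0), (5, Int.ofNat 1)], Int.ofNat 0),
   ([(4, Int.ofNat 1)], Int.ofNat 28),
   ([(0, Int.ofNat 1), (6, Int.negSucc 0)], Int.ofNat 0),
   ([(1, Int.ofNat 1), (3, Int.ofNat 1), (4, Int.ofNat 1)], Int.ofNat 84),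
   ([(0, Int.negSucc 0), (2, Int.negSucc 0)], Int.ofNat 14)]

/-- all letters -/
def Ls : List (List (List (ℕ × ℤ) × ℤ)) :=
  [L0, L1, L2, L3, L4, L5, L6, L7, L8, L9, L10, L11, L12, L13, L14, L15, L16, L17, L18, L19, L20, L21, L22, L23, L24, L25]

/-- lattice vectors -/
def Bc : List (List ℤ) :=
  [[Int.ofNat 0, Int.ofNat 0, Int.ofNat 0, Int.ofNat 0, Int.ofNat 0, Int.ofNat 0, Int.ofNat 0, Int.ofNat 0, Int.ofNat 0, Int.ofNat 0, Int.ofNat 0, Int.ofNat 0, Int.ofNat 0, Int.ofNat 0, Int.ofNat 0, Int.ofNat 84, Int.ofNat 84, Int.ofNat 0, Int.ofNat 0, Int.ofNat 0, Int.ofNat 0, Int.ofNat 0, Int.ofNat 84, Int.ofNat 0, Int.ofNat 0, Int.ofNat 0, Int.ofNat 0, Int.ofNat 0, Int.ofNat 0, Int.ofNat 0, Int.ofNat 0, Int.ofNat 0, Int.ofNat 0, Int.ofNat 0, Int.ofNat 0, Int.ofNat 0],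
   [Int.ofNat 0, Int.ofNat 0, Int.ofNat 0, Int.ofNat 0, Int.ofNat 0, Int.ofNat 0, Int.ofNat 0, Int.ofNat 0, Int.ofNat 0, Int.ofNat 0, Int.ofNat 0, Int.ofNat 0, Int.ofNat 0, Int.ofNat 0, Int.ofNat 0, Int.ofNat 0, Int.ofNat 0, Int.ofNat 84, Int.ofNat 0, Int.ofNat 84, Int.ofNat 0, Int.ofNat 0, Int.ofNat 0, Int.ofNat 0, Int.ofNat 0, Int.ofNat 0, Int.ofNat 84, Int.ofNat 0, Int.ofNat 0, Int.ofNat 0, Int.ofNat 0, Int.ofNat 0, Int.ofNat 0, Int.ofNat 0, Int.ofNat 0, Int.ofNat 0],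
   [Int.ofNat 0, Int.ofNat 0, Int.ofNat 0, Int.ofNat 0, Int.ofNat 0, Int.ofNat 0, Int.ofNat 0, Int.ofNat 0, Int.ofNat 0, Int.ofNat 0, Int.ofNat 0, Int.ofNat 0, Int.ofNat 0, Int.ofNat 0, Int.ofNat 0, Int.ofNat 0, Int.ofNat 0, Int.ofNat 0, Int.ofNat 84, Int.ofNat 0, Int.ofNat 84, Int.ofNat 0, Int.ofNat 0, Int.ofNat 0, Int.ofNat 0, Int.ofNat 0, Int.ofNat 0, Int.ofNat 0, Int.ofNat 84, Int.ofNat 0, Int.ofNat 0, Int.ofNat 0, Int.ofNat 0, Int.ofNat 0, Int.ofNat 0, Int.ofNat 0],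
   [Int.ofNat 0, Int.ofNat 0, Int.ofNat 0, Int.ofNat 0, Int.ofNat 0, Int.ofNat 0, Int.ofNat 0, Int.ofNat 0, Int.ofNat 0, Int.ofNat 0, Int.ofNat 0, Int.ofNat 0, Int.ofNat 0, Int.ofNat 0, Int.ofNat 0, Int.ofNat 0, Int.ofNat 0, Int.ofNat 0, Int.ofNat 0, Int.ofNat 0, Int.ofNat 0, Int.ofNat 0, Int.ofNat 0, Int.ofNat 0, Int.ofNat 0, Int.ofNat 84, Int.ofNat 0, Int.ofNat 0, Int.ofNat 0, Int.ofNat 84, Int.ofNat 0, Int.ofNat 84, Int.ofNat 0, Int.ofNat 0, Int.ofNat 0, Int.ofNat 0],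
   [Int.ofNat 0, Int.ofNat 0, Int.ofNat 0, Int.ofNat 0, Int.ofNat 0, Int.ofNat 0, Int.ofNat 0, Int.ofNat 0, Int.ofNat 0, Int.ofNat 0, Int.ofNat 0, Int.ofNat 0, Int.ofNat 0, Int.ofNat 0, Int.ofNat 0, Int.ofNat 0, Int.ofNat 0, Int.ofNat 0, Int.ofNat 0, Int.ofNat 0, Int.ofNat 0, Int.ofNat 84, Int.ofNat 0, Int.ofNat 0, Int.ofNat 84, Int.ofNat 0, Int.ofNat 0, Int.ofNat 0, Int.ofNat 0, Int.ofNat 0, Int.ofNat 0, Int.ofNat 0, Int.ofNat 84, Int.ofNat 0, Int.ofNat 0, Int.ofNat 0],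
   [Int.ofNat 0, Int.ofNat 0, Int.ofNat 0, Int.ofNat 0, Int.ofNat 0, Int.ofNat 0, Int.ofNat 0, Int.ofNat 0, Int.ofNat 0, Int.ofNat 0, Int.ofNat 0, Int.ofNat 0, Int.ofNat 0, Int.ofNat 0, Int.ofNat 0, Int.ofNat 0, Int.ofNat 0, Int.ofNat 0, Int.ofNat 0, Int.ofNat 0, Int.ofNat 0, Int.ofNat 0, Int.ofNat 0, Int.ofNat 84, Int.ofNat 0, Int.ofNat 0, Int.ofNat 0, Int.ofNat 84, Int.ofNat 0, Int.ofNat 0, Int.ofNat 0, Int.ofNat 0, Int.ofNat 0, Int.ofNat 0, Int.ofNat 84, Int.ofNat 0],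
   [Int.ofNat 0, Int.ofNat 0, Int.ofNat 0, Int.ofNat 0, Int.ofNat 0, Int.ofNat 0, Int.ofNat 0, Int.ofNat 0, Int.ofNat 0, Int.ofNat 0, Int.ofNat 0, Int.ofNat 0, Int.ofNat 0, Int.ofNat 0, Int.ofNat 0, Int.ofNat 0, Int.ofNat 0, Int.ofNat 0, Int.ofNat 0, Int.ofNat 0, Int.ofNat 0, Int.ofNat 0, Int.ofNat 0, Int.ofNat 0, Int.ofNat 0, Int.ofNat 0, Int.ofNat 0, Int.ofNat 0, Int.ofNat 0, Int.ofNat 0, Int.ofNat 84, Int.ofNat 0, Int.ofNat 0, Int.ofNat 84, Int.ofNat 0, Int.ofNat 84],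
   [Int.ofNat 0, Int.ofNat 0, Int.ofNat 0, Int.ofNat 0, Int.ofNat 0, Int.ofNat 0, Int.ofNat 0, Int.ofNat 0, Int.ofNat 0, Int.ofNat 0, Int.ofNat 0, Int.ofNat 0, Int.ofNat 0, Int.ofNat 0, Int.ofNat 0, Int.ofNat 0, Int.ofNat 0, Int.ofNat 0, Int.ofNat 0, Int.ofNat 0, Int.ofNat 0, Int.ofNat 0, Int.ofNat 84, Int.ofNat 0, Int.ofNat 84, Int.ofNat 84, Int.ofNat 84, Int.ofNat 84, Int.ofNat 84, Int.ofNat 0, Int.ofNat 0, Int.ofNat 0, Int.ofNat 0, Int.ofNat 0, Int.ofNat 0, Int.ofNat 0],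
   [Int.ofNat 0, Int.ofNat 0, Int.ofNat 0, Int.ofNat 0, Int.ofNat 0, Int.ofNat 0, Int.ofNat 0, Int.ofNat 0, Int.ofNat 0, Int.ofNat 0, Int.ofNat 0, Int.ofNat 0, Int.ofNat 0, Int.ofNat 0, Int.ofNat 0, Int.ofNat 0, Int.ofNat 84, Int.ofNat 0, Int.ofNat 0, Int.ofNat 0, Int.ofNat 0, Int.ofNat 0, Int.ofNat 0, Int.ofNat 84, Int.ofNat 0, Int.ofNat 0, Int.ofNat 84, Int.ofNat 0, Int.ofNat 0, Int.ofNat 84, Int.ofNat 84, Int.ofNat 0, Int.ofNat 84, Int.ofNat 0, Int.ofNat 0, Int.ofNat 0],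
   [Int.ofNat 0, Int.ofNat 0, Int.ofNat 0, Int.ofNat 0, Int.ofNat 0, Int.ofNat 0, Int.ofNat 0, Int.ofNat 0, Int.ofNat 0, Int.ofNat 0, Int.ofNat 0, Int.ofNat 0, Int.ofNat 0, Int.ofNat 0, Int.ofNat 0, Int.ofNat 84, Int.ofNat 0, Int.ofNat 84, Int.ofNat 0, Int.ofNat 0, Int.ofNat 84, Int.ofNat 0, Int.ofNat 0, Int.ofNat 0, Int.ofNat 84, Int.ofNat 0, Int.ofNat 0, Int.ofNat 0, Int.ofNat 0, Int.ofNat 84, Int.ofNat 0, Int.ofNat 0, Int.ofNat 0, Int.ofNat 84, Int.ofNat 0, Int.ofNat 0],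
   [Int.ofNat 0, Int.ofNat 0, Int.ofNat 0, Int.ofNat 0, Int.ofNat 0, Int.ofNat 0, Int.ofNat 0, Int.ofNat 0, Int.ofNat 0, Int.ofNat 0, Int.ofNat 0, Int.ofNat 0, Int.ofNat 0, Int.ofNat 0, Int.ofNat 0, Int.ofNat 168, Int.ofNat 0, Int.ofNat 0, Int.ofNat 0, Int.ofNat 0, Int.ofNat 0, Int.ofNat 0, Int.ofNat 0, Int.ofNat 0, Int.ofNat 0, Int.ofNat 0, Int.ofNat 0, Int.ofNat 0, Int.ofNat 0, Int.ofNat 0, Int.ofNat 0, Int.ofNat 0, Int.ofNat 0, Int.ofNat 0, Int.ofNat 0, Int.ofNat 0],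
   [Int.ofNat 0, Int.ofNat 0, Int.ofNat 0, Int.ofNat 0, Int.ofNat 0, Int.ofNat 0, Int.ofNat 0, Int.ofNat 0, Int.ofNat 0, Int.ofNat 0, Int.ofNat 0, Int.ofNat 0, Int.ofNat 0, Int.ofNat 0, Int.ofNat 0, Int.ofNat 0, Int.ofNat 168, Int.ofNat 0, Int.ofNat 0, Int.ofNat 0, Int.ofNat 0, Int.ofNat 0, Int.ofNat 0, Int.ofNat 0, Int.ofNat 0, Int.ofNat 0, Int.ofNat 0, Int.ofNat 0, Int.ofNat 0, Int.ofNat 0, Int.ofNat 0, Int.ofNat 0, Int.ofNat 0, Int.ofNat 0, Int.ofNat 0, Int.ofNat 0],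
   [Int.ofNat 0, Int.ofNat 0, Int.ofNat 0, Int.ofNat 0, Int.ofNat 0, Int.ofNat 0, Int.ofNat 0, Int.ofNat 0, Int.ofNat 0, Int.ofNat 0, Int.ofNat 0, Int.ofNat 0, Int.ofNat 0, Int.ofNat 0, Int.ofNat 0, Int.ofNat 0, Int.ofNat 0, Int.ofNat 168, Int.ofNat 0, Int.ofNat 0, Int.ofNat 0, Int.ofNat 0, Int.ofNat 0, Int.ofNat 0, Int.ofNat 0, Int.ofNat 0, Int.ofNat 0, Int.ofNat 0, Int.ofNat 0, Int.ofNat 0, Int.ofNat 0, Int.ofNat 0, Int.ofNat 0, Int.ofNat 0, Int.ofNat 0, Int.ofNat 0],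
   [Int.ofNat 0, Int.ofNat 0, Int.ofNat 0, Int.ofNat 0, Int.ofNat 0, Int.ofNat 0, Int.ofNat 0, Int.ofNat 0, Int.ofNat 0, Int.ofNat 0, Int.ofNat 0, Int.ofNat 0, Int.ofNat 0, Int.ofNat 0, Int.ofNat 0, Int.ofNat 0, Int.ofNat 0, Int.ofNat 0, Int.ofNat 168, Int.ofNat 0, Int.ofNat 0, Int.ofNat 0, Int.ofNat 0, Int.ofNat 0, Int.ofNat 0, Int.ofNat 0, Int.ofNat 0, Int.ofNat 0, Int.ofNat 0, Int.ofNat 0, Int.ofNat 0, Int.ofNat 0, Int.ofNat 0, Int.ofNat 0, Int.ofNat 0, Int.ofNat 0],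
   [Int.ofNat 0, Int.ofNat 0, Int.ofNat 0, Int.ofNat 0, Int.ofNat 0, Int.ofNat 0, Int.ofNat 0, Int.ofNat 0, Int.ofNat 0, Int.ofNat 0, Int.ofNat 0, Int.ofNat 0, Int.ofNat 0, Int.ofNat 0, Int.ofNat 0, Int.ofNat 0, Int.ofNat 0, Int.ofNat 0, Int.ofNat 0, Int.ofNat 168, Int.ofNat 0, Int.ofNat 0, Int.ofNat 0, Int.ofNat 0, Int.ofNat 0, Int.ofNat 0, Int.ofNat 0, Int.ofNat 0, Int.ofNat 0, Int.ofNat 0, Int.ofNat 0, Int.ofNat 0, Int.ofNat 0, Int.ofNat 0, Int.ofNat 0, Int.ofNat 0],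
   [Int.ofNat 0, Int.ofNat 0, Int.ofNat 0, Int.ofNat 0, Int.ofNat 0, Int.ofNat 0, Int.ofNat 0, Int.ofNat 0, Int.ofNat 0, Int.ofNat 0, Int.ofNat 0, Int.ofNat 0, Int.ofNat 0, Int.ofNat 0, Int.ofNat 0, Int.ofNat 0, Int.ofNat 0, Int.ofNat 0, Int.ofNat 0, Int.ofNat 0, Int.ofNat 168, Int.ofNat 0, Int.ofNat 0, Int.ofNat 0, Int.ofNat 0, Int.ofNat 0, Int.ofNat 0, Int.ofNat 0, Int.ofNat 0, Int.ofNat 0, Int.ofNat 0, Int.ofNat 0, Int.ofNat 0, Int.ofNat 0, Int.ofNat 0, Int.ofNat 0],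
   [Int.ofNat 0, Int.ofNat 0, Int.ofNat 0, Int.ofNat 0, Int.ofNat 0, Int.ofNat 0, Int.ofNat 0, Int.ofNat 0, Int.ofNat 0, Int.ofNat 0, Int.ofNat 0, Int.ofNat 0, Int.ofNat 0, Int.ofNat 0, Int.ofNat 0, Int.ofNat 0, Int.ofNat 0, Int.ofNat 0, Int.ofNat 0, Int.ofNat 0, Int.ofNat 0, Int.ofNat 168, Int.ofNat 0, Int.ofNat 0, Int.ofNat 0, Int.ofNat 0, Int.ofNat 0, Int.ofNat 0, Int.ofNat 0, Int.ofNat 0, Int.ofNat 0, Int.ofNat 0, Int.ofNat 0, Int.ofNat 0, Int.ofNat 0, Int.ofNat 0],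
   [Int.ofNat 0, Int.ofNat 0, Int.ofNat 0, Int.ofNat 0, Int.ofNat 0, Int.ofNat 0, Int.ofNat 0, Int.ofNat 0, Int.ofNat 0, Int.ofNat 0, Int.ofNat 0, Int.ofNat 0, Int.ofNat 0, Int.ofNat 0, Int.ofNat 0, Int.ofNat 0, Int.ofNat 0, Int.ofNat 0, Int.ofNat 0, Int.ofNat 0, Int.ofNat 0, Int.ofNat 0, Int.ofNat 0, Int.ofNat 168, Int.ofNat 0, Int.ofNat 0, Int.ofNat 0, Int.ofNat 0, Int.ofNat 0, Int.ofNat 0, Int.ofNat 0, Int.ofNat 0, Int.ofNat 0, Int.ofNat 0, Int.ofNat 0, Int.ofNat 0],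
   [Int.ofNat 0, Int.ofNat 0, Int.ofNat 0, Int.ofNat 0, Int.ofNat 0, Int.ofNat 0, Int.ofNat 0, Int.ofNat 0, Int.ofNat 0, Int.ofNat 0, Int.ofNat 0, Int.ofNat 0, Int.ofNat 0, Int.ofNat 0, Int.ofNat 0, Int.ofNat 0, Int.ofNat 0, Int.ofNat 0, Int.ofNat 0, Int.ofNat 0, Int.ofNat 0, Int.ofNat 0, Int.ofNat 0, Int.ofNat 0, Int.ofNat 168, Int.ofNat 0, Int.ofNat 0, Int.ofNat 0, Int.ofNat 0, Int.ofNat 0, Int.ofNat 0, Int.ofNat 0, Int.ofNat 0, Int.ofNat 0, Int.ofNat 0, Int.ofNat 0],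
   [Int.ofNat 0, Int.ofNat 0, Int.ofNat 0, Int.ofNat 0, Int.ofNat 0, Int.ofNat 0, Int.ofNat 0, Int.ofNat 0, Int.ofNat 0, Int.ofNat 0, Int.ofNat 0, Int.ofNat 0, Int.ofNat 0, Int.ofNat 0, Int.ofNat 0, Int.ofNat 0, Int.ofNat 0, Int.ofNat 0, Int.ofNat 0, Int.ofNat 0, Int.ofNat 0, Int.ofNat 0, Int.ofNat 0, Int.ofNat 0, Int.ofNat 0, Int.ofNat 168, Int.ofNat 0, Int.ofNat 0, Int.ofNat 0, Int.ofNat 0, Int.ofNat 0, Int.ofNat 0, Int.ofNat 0, Int.ofNat 0, Int.ofNat 0, Int.ofNat 0],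
   [Int.ofNat 0, Int.ofNat 0, Int.ofNat 0, Int.ofNat 0, Int.ofNat 0, Int.ofNat 0, Int.ofNat 0, Int.ofNat 0, Int.ofNat 0, Int.ofNat 0, Int.ofNat 0, Int.ofNat 0, Int.ofNat 0, Int.ofNat 0, Int.ofNat 0, Int.ofNat 0, Int.ofNat 0, Int.ofNat 0, Int.ofNat 0, Int.ofNat 0, Int.ofNat 0, Int.ofNat 0, Int.ofNat 0, Int.ofNat 0, Int.ofNat 0, Int.ofNat 0, Int.ofNat 0, Int.ofNat 0, Int.ofNat 0, Int.ofNat 168, Int.ofNat 0, Int.ofNat 0, Int.ofNat 0, Int.ofNat 0, Int.ofNat 0, Int.ofNat 0],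
   [Int.ofNat 0, Int.ofNat 0, Int.ofNat 84, Int.ofNat 84, Int.ofNat 0, Int.ofNat 0, Int.ofNat 0, Int.ofNat 0, Int.ofNat 0, Int.ofNat 0, Int.ofNat 0, Int.ofNat 0, Int.ofNat 0, Int.ofNat 0, Int.ofNat 0, Int.ofNat 0, Int.ofNat 0, Int.ofNat 0, Int.ofNat 0, Int.ofNat 0, Int.ofNat 0, Int.ofNat 0, Int.ofNat 0, Int.ofNat 0, Int.ofNat 0, Int.ofNat 0, Int.ofNat 0, Int.ofNat 0, Int.ofNat 0, Int.ofNat 0, Int.ofNat 0, Int.ofNat 0, Int.ofNat 0, Int.ofNat 0, Int.ofNat 0, Int.ofNat 0],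
   [Int.ofNat 0, Int.ofNat 0, Int.ofNat 84, Int.ofNat 0, Int.ofNat 84, Int.ofNat 0, Int.ofNat 0, Int.ofNat 0, Int.ofNat 0, Int.ofNat 0, Int.ofNat 0, Int.ofNat 0, Int.ofNat 0, Int.ofNat 0, Int.ofNat 0, Int.ofNat 0, Int.ofNat 0, Int.ofNat 0, Int.ofNat 0, Int.ofNat 0, Int.ofNat 0, Int.ofNat 0, Int.ofNat 0, Int.ofNat 0, Int.ofNat 0, Int.ofNat 0, Int.ofNat 0, Int.ofNat 0, Int.ofNat 0, Int.ofNat 0, Int.ofNat 0, Int.ofNat 0, Int.ofNat 0, Int.ofNat 0, Int.ofNat 0, Int.ofNat 0],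
   [Int.ofNat 84, Int.ofNat 84, Int.ofNat 0, Int.ofNat 0, Int.ofNat 0, Int.ofNat 84, Int.ofNat 0, Int.ofNat 0, Int.ofNat 0, Int.ofNat 0, Int.ofNat 0, Int.ofNat 0, Int.ofNat 0, Int.ofNat 0, Int.ofNat 0, Int.ofNat 0, Int.ofNat 0, Int.ofNat 0, Int.ofNat 0, Int.ofNat 0, Int.ofNat 0, Int.ofNat 0, Int.ofNat 0, Int.ofNat 0, Int.ofNat 0, Int.ofNat 0, Int.ofNat 0, Int.ofNat 0, Int.ofNat 0, Int.ofNat 0, Int.ofNat 0, Int.ofNat 0, Int.ofNat 0, Int.ofNat 0, Int.ofNat 0, Int.ofNat 0],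
   [Int.ofNat 84, Int.ofNat 84, Int.ofNat 0, Int.ofNat 0, Int.ofNat 0, Int.ofNat 0, Int.ofNat 84, Int.ofNat 0, Int.ofNat 0, Int.ofNat 0, Int.ofNat 0, Int.ofNat 0, Int.ofNat 0, Int.ofNat 0, Int.ofNat 0, Int.ofNat 0, Int.ofNat 0, Int.ofNat 0, Int.ofNat 0, Int.ofNat 0, Int.ofNat 0, Int.ofNat 0, Int.ofNat 0, Int.ofNat 0, Int.ofNat 0, Int.ofNat 0, Int.ofNat 0, Int.ofNat 0, Int.ofNat 0, Int.ofNat 0, Int.ofNat 0, Int.ofNat 0, Int.ofNat 0, Int.ofNat 0, Int.ofNat 0, Int.ofNat 0],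
   [Int.ofNat 168, Int.ofNat 0, Int.ofNat 0, Int.ofNat 0, Int.ofNat 0, Int.ofNat 0, Int.ofNat 0, Int.ofNat 0, Int.ofNat 0, Int.ofNat 0, Int.ofNat 0, Int.ofNat 0, Int.ofNat 0, Int.ofNat 0, Int.ofNat 0, Int.ofNat 0, Int.ofNat 0, Int.ofNat 0, Int.ofNat 0, Int.ofNat 0, Int.ofNat 0, Int.ofNat 0, Int.ofNat 0, Int.ofNat 0, Int.ofNat 0, Int.ofNat 0, Int.ofNat 0, Int.ofNat 0, Int.ofNat 0, Int.ofNat 0, Int.ofNat 0, Int.ofNat 0, Int.ofNat 0, Int.ofNat 0, Int.ofNat 0, Int.ofNat 0],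
   [Int.ofNat 0, Int.ofNat 168, Int.ofNat 0, Int.ofNat 0, Int.ofNat 0, Int.ofNat 0, Int.ofNat 0, Int.ofNat 0, Int.ofNat 0, Int.ofNat 0, Int.ofNat 0, Int.ofNat 0, Int.ofNat 0, Int.ofNat 0, Int.ofNat 0, Int.ofNat 0, Int.ofNat 0, Int.ofNat 0, Int.ofNat 0, Int.ofNat 0, Int.ofNat 0, Int.ofNat 0, Int.ofNat 0, Int.ofNat 0, Int.ofNat 0, Int.ofNat 0, Int.ofNat 0, Int.ofNat 0, Int.ofNat 0, Int.ofNat 0, Int.ofNat 0, Int.ofNat 0, Int.ofNat 0, Int.ofNat 0, Int.ofNat 0, Int.ofNat 0],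
   [Int.ofNat 0, Int.ofNat 0, Int.ofNat 168, Int.ofNat 0, Int.ofNat 0, Int.ofNat 0, Int.ofNat 0, Int.ofNat 0, Int.ofNat 0, Int.ofNat 0, Int.ofNat 0, Int.ofNat 0, Int.ofNat 0, Int.ofNat 0, Int.ofNat 0, Int.ofNat 0, Int.ofNat 0, Int.ofNat 0, Int.ofNat 0, Int.ofNat 0, Int.ofNat 0, Int.ofNat 0, Int.ofNat 0, Int.ofNat 0, Int.ofNat 0, Int.ofNat 0, Int.ofNat 0, Int.ofNat 0, Int.ofNat 0, Int.ofNat 0, Int.ofNat 0, Int.ofNat 0, Int.ofNat 0, Int.ofNat 0, Int.ofNat 0, Int.ofNat 0],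
   [Int.ofNat 0, Int.ofNat 0, Int.ofNat 0, Int.ofNat 0, Int.ofNat 0, Int.ofNat 0, Int.ofNat 0, Int.ofNat 168, Int.ofNat 0, Int.ofNat 0, Int.ofNat 0, Int.ofNat 0, Int.ofNat 0, Int.ofNat 0, Int.ofNat 0, Int.ofNat 0, Int.ofNat 84, Int.ofNat 0, Int.ofNat 0, Int.ofNat 0, Int.ofNat 0, Int.ofNat 0, Int.ofNat 0, Int.ofNat 84, Int.ofNat 0, Int.ofNat 0, Int.ofNat 0, Int.ofNat 0, Int.ofNat 0, Int.ofNat 0, Int.ofNat 84, Int.ofNat 0, Int.ofNat 0, Int.ofNat 0, Int.ofNat 0, Int.ofNat 0],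
   [Int.ofNat 0, Int.ofNat 0, Int.ofNat 0, Int.ofNat 0, Int.ofNat 0, Int.ofNat 0, Int.ofNat 0, Int.ofNat 0, Int.ofNat 168, Int.ofNat 0, Int.ofNat 0, Int.ofNat 0, Int.ofNat 0, Int.ofNat 0, Int.ofNat 0, Int.ofNat 84, Int.ofNat 0, Int.ofNat 0, Int.ofNat 0, Int.ofNat 0, Int.ofNat 0, Int.ofNat 84, Int.ofNat 0, Int.ofNat 0, Int.ofNat 0, Int.ofNat 0, Int.ofNat 0, Int.ofNat 0, Int.ofNat 0, Int.ofNat 0, Int.ofNat 84, Int.ofNat 0, Int.ofNat 0, Int.ofNat 0, Int.ofNat 0, Int.ofNat 0],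
   [Int.ofNat 0, Int.ofNat 0, Int.ofNat 0, Int.ofNat 0, Int.ofNat 0, Int.ofNat 0, Int.ofNat 0, Int.ofNat 0, Int.ofNat 0, Int.ofNat 168, Int.ofNat 0, Int.ofNat 0, Int.ofNat 0, Int.ofNat 0, Int.ofNat 0, Int.ofNat 0, Int.ofNat 0, Int.ofNat 84, Int.ofNat 84, Int.ofNat 0, Int.ofNat 0, Int.ofNat 0, Int.ofNat 0, Int.ofNat 0, Int.ofNat 0, Int.ofNat 84, Int.ofNat 0, Int.ofNat 0, Int.ofNat 0, Int.ofNat 0, Int.ofNat 0, Int.ofNat 0, Int.ofNat 0, Int.ofNat 0, Int.ofNat 0, Int.ofNat 0],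
   [Int.ofNat 0, Int.ofNat 0, Int.ofNat 0, Int.ofNat 0, Int.ofNat 0, Int.ofNat 0, Int.ofNat 0, Int.ofNat 0, Int.ofNat 0, Int.ofNat 0, Int.ofNat 168, Int.ofNat 0, Int.ofNat 0, Int.ofNat 0, Int.ofNat 0, Int.ofNat 0, Int.ofNat 0, Int.ofNat 0, Int.ofNat 0, Int.ofNat 0, Int.ofNat 0, Int.ofNat 0, Int.ofNat 0, Int.ofNat 0, Int.ofNat 0, Int.ofNat 84, Int.ofNat 84, Int.ofNat 84, Int.ofNat 0, Int.ofNat 0, Int.ofNat 0, Int.ofNat 0, Int.ofNat 0, Int.ofNat 0, Int.ofNat 0, Int.ofNat 0],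
   [Int.ofNat 0, Int.ofNat 0, Int.ofNat 0, Int.ofNat 0, Int.ofNat 0, Int.ofNat 0, Int.ofNat 0, Int.ofNat 0, Int.ofNat 0, Int.ofNat 0, Int.ofNat 0, Int.ofNat 168, Int.ofNat 0, Int.ofNat 0, Int.ofNat 0, Int.ofNat 0, Int.ofNat 0, Int.ofNat 0, Int.ofNat 0, Int.ofNat 0, Int.ofNat 0, Int.ofNat 0, Int.ofNat 0, Int.ofNat 0, Int.ofNat 84, Int.ofNat 84, Int.ofNat 0, Int.ofNat 0, Int.ofNat 84, Int.ofNat 0, Int.ofNat 0, Int.ofNat 0, Int.ofNat 0, Int.ofNat 0, Int.ofNat 0, Int.ofNat 0],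
   [Int.ofNat 0, Int.ofNat 0, Int.ofNat 0, Int.ofNat 0, Int.ofNat 0, Int.ofNat 0, Int.ofNat 0, Int.ofNat 0, Int.ofNat 0, Int.ofNat 0, Int.ofNat 0, Int.ofNat 0, Int.ofNat 168, Int.ofNat 0, Int.ofNat 0, Int.ofNat 0, Int.ofNat 0, Int.ofNat 0, Int.ofNat 0, Int.ofNat 0, Int.ofNat 0, Int.ofNat 0, Int.ofNat 0, Int.ofNat 0, Int.ofNat 0, Int.ofNat 0, Int.ofNat 0, Int.ofNat 0, Int.ofNat 0, Int.ofNat 84, Int.ofNat 84, Int.ofNat 0, Int.ofNat 84, Int.ofNat 0, Int.ofNat 0, Int.ofNat 0],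
   [Int.ofNat 0, Int.ofNat 0, Int.ofNat 0, Int.ofNat 0, Int.ofNat 0, Int.ofNat 0, Int.ofNat 0, Int.ofNat 0, Int.ofNat 0, Int.ofNat 0, Int.ofNat 0, Int.ofNat 0, Int.ofNat 0, Int.ofNat 168, Int.ofNat 0, Int.ofNat 0, Int.ofNat 0, Int.ofNat 0, Int.ofNat 84, Int.ofNat 0, Int.ofNat 0, Int.ofNat 0, Int.ofNat 0, Int.ofNat 0, Int.ofNat 0, Int.ofNat 0, Int.ofNat 0, Int.ofNat 0, Int.ofNat 0, Int.ofNat 0, Int.ofNat 0, Int.ofNat 84, Int.ofNat 0, Int.ofNat 84, Int.ofNat 0, Int.ofNat 0],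
   [Int.ofNat 0, Int.ofNat 0, Int.ofNat 0, Int.ofNat 0, Int.ofNat 0, Int.ofNat 0, Int.ofNat 0, Int.ofNat 0, Int.ofNat 0, Int.ofNat 0, Int.ofNat 0, Int.ofNat 0, Int.ofNat 0, Int.ofNat 0, Int.ofNat 168, Int.ofNat 0, Int.ofNat 0, Int.ofNat 0, Int.ofNat 0, Int.ofNat 0, Int.ofNat 0, Int.ofNat 0, Int.ofNat 0, Int.ofNat 0, Int.ofNat 0, Int.ofNat 0, Int.ofNat 0, Int.ofNat 0, Int.ofNat 0, Int.ofNat 0, Int.ofNat 84, Int.ofNat 84, Int.ofNat 0, Int.ofNat 0, Int.ofNat 84, Int.ofNat 0]]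

/-- zero -/
def Z0 : List ℤ := [Int.ofNat 0, Int.ofNat 0, Int.ofNat 0, Int.ofNat 0, Int.ofNat 0, Int.ofNat 0, Int.ofNat 0, Int.ofNat 0, Int.ofNat 0, Int.ofNat 0, Int.ofNat 0, Int.ofNat 0, Int.ofNat 0, Int.ofNat 0, Int.ofNat 0, Int.ofNat 0, Int.ofNat 0, Int.ofNat 0, Int.ofNat 0, Int.ofNat 0, Int.ofNat 0, Int.ofNat 0, Int.ofNat 0, Int.ofNat 0, Int.ofNat 0, Int.ofNat 0, Int.ofNat 0, Int.ofNat 0, Int.ofNat 0, Int.ofNat 0, Int.ofNat 0, Int.ofNat 0, Int.ofNat 0, Int.ofNat 0, Int.ofNat 0, Int.ofNat 0]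

end VRC.Cx.D36
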