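import Mathlib
import Pool.Agent.Work.MP_332575_al.Bd.B04

set_option autoImplicit false

/-! The elimination machine: an environment of packed rows, linear instructions with a digit
check, and its soundness. -/

namespace VRC.Pk

open Finset

attribute [local irreducible] B NN

/-! ### digits -/

/-- half of the digit range -/
def HH : ℕ := 1048576

/-- all digits one -/
def ones (n : ℕ) : ℕ := Nat.div (Nat.sub (Nat.pow B n) 1) (Nat.sub B 1)

/-- the zero row -/
def zr (n : ℕ) : ℕ := Nat.mul HH (ones n)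

/-- the mask of the high bits `21, ..., 39` -/
def hm (n : ℕ) : ℕ := Nat.mul 1099509530624 (ones n)

theorem ones_eq (n : ℕ) : ones n = pk 1 n (fun _ => 1) := by
  have h : (B - 1) * pk 1 n (fun _ => 1) + 1 = B ^ n := by
    induction n with
    | zero => simp [pk]
    | succ n ih =>
      have hB := one_lt_B
      rw [pk_succ, mul_add, one_mul, one_mul, pow_succ]
      calc (B - 1) * pk 1 n (fun _ => 1) + (B - 1) * B ^ n + 1
          = ((B - 1) * pk 1 n (fun _ => 1) + 1) + (B - 1) * B ^ n := by ring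
        _ = B ^ n + (B - 1) * B ^ n := by rw [ih]
        _ = (1 + (B - 1)) * B ^ n := by ring
        _ = B * B ^ n := by rw [show 1 + (B - 1) = B by omega]
        _ = B ^ n * B := by ring
  have h2 : B ^ n - 1 = (B - 1) * pk 1 n (fun _ => 1) := by omega
  have hB := one_lt_B
  show (B ^ n - 1) / (B - 1) = _
  rw [h2, Nat.mul_div_cancel_left _ (by omega)]

theorem zr_eq (n : ℕ) : zr n = pk 1 n (fun _ => HH) := by
  show HH * ones n = _
  rw [ones_eq, pk_mul]
  simp only [mul_one]

theorem hm_eq (n : ℕ) : hm n = pk 1 n (fun _ => 1099509530624) := by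
  show 1099509530624 * ones n = _
  rw [ones_eq, pk_mul]

theorem mod_pow_pk (V n : ℕ) : V % B ^ n = pk 1 n (fun m => V / B ^ m % B) := by
  induction n with
  | zero => simp [pk, Nat.mod_one]
  | succ n ih =>
    rw [pk_succ, one_mul, ← ih, Nat.mod_pow_succ, mul_comm (B ^ n)]

theorem digit_pk (n : ℕ) (d : ℕ → ℕ) (hd : ∀ i < n, d i < B) (m : ℕ) (hm : m < n) :
    pk 1 n d / B ^ m % B = d m := by
  have h1 := mod_pow_pk (pk 1 n d) n
  rw [Nat.mod_eq_of_lt (pk_lt n d hd)] at h1
  have h2 := pk_inj n d _ hd (fun i _ => Nat.mod_lt _ B_pos) h1 m hm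
  exact h2.symm

theorem testBit_digit (V m j : ℕ) (hj : j < 40) :
    (V / B ^ m % B).testBit j = V.testBit (40 * m + j) := by
  rw [B_eq, ← pow_mul, Nat.testBit_mod_two_pow, Nat.testBit_div_two_pow]
  simp [hj, add_comm]

/-- a number without high bits is a packed row of small digits -/
theorem small_digits (n V : ℕ) (hV : V < B ^ n) (h : Nat.land V (hm n) = 0) :
    ∃ x : ℕ → ℕ, (∀ m, x m < 2 * HH) ∧ V = pk 1 n x := by
  refine ⟨fun m => if m < n then V / B ^ m % B else 0, fun m => ?_, ?_⟩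
  · show (if m < n then V / B ^ m % B else 0) < 2 * HH
    split
    · rename_i hmn
      have hH : 2 * HH = 2 ^ 21 := by norm_num [HH]
      rw [hH]
      apply Nat.lt_pow_two_of_testBit
      intro j hj
      by_cases hj2 : j < 40
      · rw [testBit_digit _ _ _ hj2]
        have h1 : (Nat.land V (hm n)).testBit (40 * m + j) = false := by rw [h]; exact Nat.zero_testBit _
        have h2 : Nat.land V (hm n) = V &&& hm n := rfl
        rw [h2, Nat.testBit_and] at h1
        have h3 : (hm n).testBit (40 * m + j) = true := by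
          rw [← testBit_digit _ _ _ hj2, hm_eq, digit_pk n _ (fun i _ => ?_) m hmn]
          · interval_cases j <;> rfl
          · rw [B_eq]; norm_num
        rw [h3, Bool.and_true] at h1
        exact h1
      · have h4 : V / B ^ m % B < 2 ^ j := by
          have := Nat.mod_lt (V / B ^ m) B_pos
          calc V / B ^ m % B < B := this
            _ = 2 ^ 40 := B_eq
            _ ≤ 2 ^ j := Nat.pow_le_pow_right (by norm_num) (by omega)
        exact Nat.testBit_lt_two_pow h4
    · norm_num [HH]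
  · have h1 := mod_pow_pk V n
    rw [Nat.mod_eq_of_lt hV] at h1
    conv_lhs => rw [h1]
    rw [pk, pk]
    apply sum_congr rfl
    intro i hi
    rw [if_pos (mem_range.mp hi)]

/-! ### weighted rows -/

section rows

variable {C : Type} [CommGroup C] (c : ℕ → C)

/-- a packed sum of rows of total weight `w` -/
def PV (n w S : ℕ) : Prop :=
  ∃ d : ℕ → ℕ, (∀ m, d m ≤ w * (2 * HH)) ∧ S = pk 1 n d ∧
    ∏ m ∈ range n, c m ^ ((d m : ℤ) - (w : ℤ) * (HH : ℤ)) = 1

variable {c}

theorem ZR.pv {n V : ℕ} (h : ZR c n HH V) : PV c n 1 V := by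
  obtain ⟨d, h1, h2, h3⟩ := h
  refine ⟨d, fun m => by have := h1 m; omega, h2, ?_⟩
  rw [← h3]
  apply prod_congr rfl
  intro m _
  rw [Nat.cast_one, one_mul]

theorem PV.zero (n : ℕ) : PV c n 0 0 := by
  refine ⟨fun _ => 0, fun m => Nat.zero_le _, by simp [pk], ?_⟩
  simp

theorem PV.add {n w w' S S' : ℕ} (h : PV c n w S) (h' : PV c n w' S') :
    PV c n (w + w') (S + S') := by
  obtain ⟨d, h1, h2, h3⟩ := h
  obtain ⟨d', h1', h2', h3'⟩ := h'
  refine ⟨fun m => d m + d' m, fun m => ?_, by rw [h2, h2', pk_add], ?_⟩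
  · have := h1 m
    have := h1' m
    show d m + d' m ≤ _
    rw [add_mul]
    omega
  · have h4 : ∏ m ∈ range n, c m ^ (((d m + d' m : ℕ) : ℤ) - ((w + w' : ℕ) : ℤ) * (HH : ℤ)) =
        (∏ m ∈ range n, c m ^ ((d m : ℤ) - (w : ℤ) * (HH : ℤ))) *
        ∏ m ∈ range n, c m ^ ((d' m : ℤ) - (w' : ℤ) * (HH : ℤ)) := by
      rw [← prod_mul_distrib]
      apply prod_congr rfl
      intro m _
      rw [← zpow_add]
      congr 1
      push_cast
      ring
    rw [h4, h3, h3', one_mul]

theorem PV.nmul {n w S : ℕ} (h : PV c n w S) (q : ℕ) : PV c n (q * w) (q * S) := by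
  obtain ⟨d, h1, h2, h3⟩ := h
  refine ⟨fun m => q * d m, fun m => ?_, by rw [h2, pk_mul], ?_⟩
  · show q * d m ≤ _
    rw [mul_assoc]
    exact Nat.mul_le_mul_left _ (h1 m)
  · have h4 : ∏ m ∈ range n, c m ^ (((q * d m : ℕ) : ℤ) - ((q * w : ℕ) : ℤ) * (HH : ℤ)) =
        (∏ m ∈ range n, c m ^ ((d m : ℤ) - (w : ℤ) * (HH : ℤ))) ^ q := by
      rw [← prod_pow]
      apply prod_congr rfl
      intro m _
      rw [← zpow_natCast, ← zpow_mul]
      congr 1
      push_cast
      ring
    rw [h4, h3, one_pow]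

/-- the zero row is trivial -/
theorem ZR.zr (n : ℕ) : ZR c n HH (zr n) := by
  refine ⟨fun _ => HH, fun _ => by norm_num [HH], zr_eq n, ?_⟩
  simp

/-- difference of two weighted rows -/
theorem PV.diff {n P N X Y V : ℕ} (hX : PV c n (P + (N + 1)) X) (hY : PV c n (N + P) Y)
    (hb : P + N + 2 ≤ 524287) (hYX : Y ≤ X) (hV : V = X - Y) (hl : Nat.land V (hm n) = 0) :
    ZR c n HH V := by
  obtain ⟨d, h1, h2, h3⟩ := hX
  obtain ⟨e, g1, g2, g3⟩ := hY
  have hBB : (P + N + 2) * (2 * HH) < B := by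
    rw [B_eq]
    calc (P + N + 2) * (2 * HH) ≤ 524287 * (2 * HH) := Nat.mul_le_mul_right _ hb
      _ < 2 ^ 40 := by norm_num [HH]
  have hd : ∀ m, d m < B := fun m => by
    have := h1 m
    have h5 : (P + (N + 1)) * (2 * HH) ≤ (P + N + 2) * (2 * HH) :=
      Nat.mul_le_mul_right _ (by omega)
    omega
  have hVn : V < B ^ n := by
    have h6 := pk_lt n d (fun i _ => hd i)
    rw [← h2] at h6
    omega
  obtain ⟨x, hx1, hx2⟩ := small_digits n V hVn hl
  have h7 : pk 1 n (fun m => x m + e m) = pk 1 n d := by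
    rw [← pk_add, ← hx2, ← g2, ← h2]
    omega
  have h8 := pk_inj n _ _ (fun i _ => ?_) (fun i _ => hd i) h7
  · refine ⟨x, hx1, hx2, ?_⟩
    have h9 : ∏ m ∈ range n, c m ^ ((x m : ℤ) - (HH : ℤ)) =
        (∏ m ∈ range n, c m ^ ((d m : ℤ) - ((P + (N + 1) : ℕ) : ℤ) * (HH : ℤ))) *
        (∏ m ∈ range n, c m ^ ((e m : ℤ) - ((N + P : ℕ) : ℤ) * (HH : ℤ)))⁻¹ := by
      rw [← prod_inv_distrib, ← prod_mul_distrib]
      apply prod_congr rfl
      intro m hm'
      rw [← zpow_neg, ← zpow_add]
      congr 1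
      have h10 : x m + e m = d m := h8 m (mem_range.mp hm')
      have h11 : (x m : ℤ) + e m = d m := by exact_mod_cast h10
      rw [← h11]
      push_cast
      ring
    rw [h9, h3, g3, one_mul, inv_one]
  · have := hx1 i
    have := g1 i
    have h5 : (N + P) * (2 * HH) + 2 * HH ≤ (P + N + 2) * (2 * HH) := by
      rw [show P + N + 2 = (N + P) + 2 by ring, add_mul (N + P) 2]
      omega
    show x i + e i < B
    omega

end rows

/-! ### the machine -/

/-- forced evaluation -/
def frc {α : Type} (n : ℕ) (f : ℕ → α) : α :=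
  match n with
  | 0 => f 0
  | Nat.succ k => f (Nat.succ k)

theorem frc_eq {α : Type} (n : ℕ) (f : ℕ → α) : frc n f = f n := by
  cases n <;> rfl

/-- an environment -/
inductive Tr : Type
  | nil : Tr
  | bin (v : ℕ) (l r : Tr) : Tr

/-- the entry `i` -/
noncomputable def Tr.get (z : ℕ) (t : Tr) : ℕ → ℕ :=
  Tr.rec (motive := fun _ => ℕ → ℕ) (fun _ => z)
    (fun v _ _ gl gr i => cond (Nat.beq i 0) v
      (cond (Nat.beq (Nat.land i 1) 1) (gl (Nat.shiftRight i 1))
        (gr (Nat.pred (Nat.shiftRight i 1))))) t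

/-- set the entry `i` -/
noncomputable def Tr.set {α : Type} (v : ℕ) (t : Tr) : ℕ → (Tr → α) → α :=
  Tr.rec (motive := fun _ => ℕ → (Tr → α) → α) (fun _ k => k (Tr.bin v Tr.nil Tr.nil))
    (fun w l r sl sr i k => cond (Nat.beq i 0) (k (Tr.bin v l r))
      (cond (Nat.beq (Nat.land i 1) 1) (sl (Nat.shiftRight i 1) (fun l' => k (Tr.bin w l' r)))
        (sr (Nat.pred (Nat.shiftRight i 1)) (fun r' => k (Tr.bin w l r'))))) t

/-- all entries satisfy `P` -/
def Tr.All (P : ℕ → Prop) : Tr → Prop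
  | .nil => True
  | .bin v l r => P v ∧ l.All P ∧ r.All P

theorem Tr.get_all {P : ℕ → Prop} {z : ℕ} (hz : P z) (t : Tr) (h : t.All P) (i : ℕ) :
    P (t.get z i) := by
  induction t generalizing i with
  | nil => exact hz
  | bin v l r ihl ihr =>
    obtain ⟨h1, h2, h3⟩ := h
    show P (cond (Nat.beq i 0) v
      (cond (Nat.beq (Nat.land i 1) 1) (l.get z (Nat.shiftRight i 1))
        (r.get z (Nat.pred (Nat.shiftRight i 1)))))
    cases Nat.beq i 0
    · cases Nat.beq (Nat.land i 1) 1
      · exact ihr h3 _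
      · exact ihl h2 _
    · exact h1

theorem Tr.set_all {P : ℕ → Prop} {v : ℕ} (hv : P v) (t : Tr) (h : t.All P) (i : ℕ)
    (k : Tr → Bool) (hk : t.set v i k = true) : ∃ t' : Tr, t'.All P ∧ k t' = true := by
  induction t generalizing i k with
  | nil => exact ⟨Tr.bin v Tr.nil Tr.nil, ⟨hv, trivial, trivial⟩, hk⟩
  | bin w l r ihl ihr =>
    obtain ⟨h1, h2, h3⟩ := h
    have hk : cond (Nat.beq i 0) (k (Tr.bin v l r))
      (cond (Nat.beq (Nat.land i 1) 1)
        (l.set v (Nat.shiftRight i 1) (fun l' => k (Tr.bin w l' r)))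
        (r.set v (Nat.pred (Nat.shiftRight i 1)) (fun r' => k (Tr.bin w l r')))) = true := hk
    cases h0 : Nat.beq i 0
    · rw [h0, cond_false] at hk
      cases h4 : Nat.beq (Nat.land i 1) 1
      · rw [h4, cond_false] at hk
        obtain ⟨t', h5, h6⟩ := ihr h3 _ _ hk
        exact ⟨Tr.bin w l t', ⟨h1, h2, h5⟩, h6⟩
      · rw [h4, cond_true] at hk
        obtain ⟨t', h5, h6⟩ := ihl h2 _ _ hk
        exact ⟨Tr.bin w t' r, ⟨h1, h5, h3⟩, h6⟩
    · rw [h0, cond_true] at hk
      exact ⟨Tr.bin v l r, ⟨hv, h2, h3⟩, hk⟩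

/-- weighted sum of entries; a term is coded as `8192 q + index` -/
noncomputable def lsum (z : ℕ) (t : Tr) (l : List ℕ) : ℕ :=
  List.rec 0 (fun a _ ih => Nat.add (Nat.mul (Nat.shiftRight a 13) (t.get z (Nat.land a 8191))) ih) l

/-- sum of the coefficients -/
noncomputable def csum (l : List ℕ) : ℕ :=
  List.rec 0 (fun a _ ih => Nat.add (Nat.shiftRight a 13) ih) l

/-- an instruction: a linear combination (positive and negative terms) or an external row -/
inductive Ins (α : Type) : Type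
  | lin (a b : List ℕ) : Ins α
  | src (e : α) : Ins α

/-- a row with a salt in the low 64 bits (this makes the hashes of the literals different) -/
def salt (V j : ℕ) : ℕ := Nat.add (Nat.shiftLeft V 64) (Nat.land j 8191)

/-- a linear instruction; `y` is the salted zero row -/
noncomputable def linK {β : Type} (y z : ℕ) (t : Tr) (a b : List ℕ) (bad : β) (k : ℕ → β) : β :=
  frc (csum a) fun P => frc (csum b) fun N =>
    cond (Nat.ble (Nat.add (Nat.add P N) 2) 524287)
      ((fun X Y => cond (Nat.ble Y X) (k (Nat.sub X Y)) bad)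
        (Nat.add (Nat.shiftRight (lsum y t a) 64) (Nat.mul (Nat.succ N) z))
        (Nat.add (Nat.shiftRight (lsum y t b) 64) (Nat.mul P z))) bad

/-- store a row; `m` is the shifted mask -/
noncomputable def stor (m : ℕ) (t : Tr) (j V : ℕ) (k : Tr → Bool) : Bool :=
  frc (salt V j) fun U => cond (Nat.beq (Nat.land U m) 0) (t.set U j k) false

/-- run a program; the next result gets the index `j` -/
noncomputable def run {α : Type} (z m : ℕ) (S : α → (ℕ → Bool) → Bool) (fin : Tr → Bool)
    (p : List (Ins α)) : Tr → ℕ → Bool :=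
  List.rec (motive := fun _ => Tr → ℕ → Bool) (fun t _ => fin t)
    (fun s _ ih t j => frc j fun j' => Ins.rec (motive := fun _ => Bool)
      (fun a b => linK (Nat.shiftLeft z 64) z t a b false (fun V =>
        stor (Nat.shiftLeft m 64) t j' V (fun t' => ih t' (Nat.succ j'))))
      (fun e => S e (fun V =>
        stor (Nat.shiftLeft m 64) t j' V (fun t' => ih t' (Nat.succ j')))) s) p

/-- load rows -/
noncomputable def load (k : Tr → ℕ → Bool) (L : List ℕ) : Tr → ℕ → Bool :=
  List.rec (motive := fun _ => Tr → ℕ → Bool) k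
    (fun v _ ih t j => frc j fun j' => frc (salt v j') fun U =>
      t.set U j' (fun t' => ih t' (Nat.succ j'))) L

section sound

variable {C : Type} [CommGroup C] {c : ℕ → C} {n : ℕ}

theorem shl64 (V : ℕ) : Nat.shiftLeft V 64 = V * 18446744073709551616 := by
  show V <<< 64 = _
  rw [Nat.shiftLeft_eq]

theorem shr64 (V : ℕ) : Nat.shiftRight V 64 = V / 18446744073709551616 := by
  show V >>> 64 = _
  rw [Nat.shiftRight_eq_div_pow]

variable (c n) in
/-- a salted trivial row -/
def ZS (u : ℕ) : Prop :=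
  ∃ A r : ℕ, u = A * 18446744073709551616 + r ∧ r ≤ 8191 ∧ ZR c n HH A

variable (c n) in
/-- a salted weighted row -/
def SV (w S : ℕ) : Prop :=
  ∃ A r : ℕ, S = A * 18446744073709551616 + r ∧ r ≤ 8191 * w ∧ PV c n w A

theorem land_le (j : ℕ) : Nat.land j 8191 ≤ 8191 := Nat.and_le_right

theorem salt_zs {V : ℕ} (h : ZR c n HH V) (j : ℕ) : ZS c n (salt V j) := by
  refine ⟨V, Nat.land j 8191, ?_, land_le j, h⟩
  show Nat.shiftLeft V 64 + Nat.land j 8191 = _
  rw [shl64]

theorem zero_zs : ZS c n (Nat.shiftLeft (zr n) 64) :=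
  ⟨zr n, 0, by rw [shl64, add_zero], Nat.zero_le _, ZR.zr n⟩

theorem lsum_sv (t : Tr) (ht : t.All (ZS c n)) (l : List ℕ) :
    SV c n (csum l) (lsum (Nat.shiftLeft (zr n) 64) t l) := by
  induction l with
  | nil => exact ⟨0, 0, by rw [zero_mul]; rfl, Nat.zero_le _, PV.zero n⟩
  | cons a l ih =>
    obtain ⟨A, r, h1, h2, h3⟩ := Tr.get_all zero_zs t ht (Nat.land a 8191)
    obtain ⟨A', r', h1', h2', h3'⟩ := ih
    have h4 := (h3.pv).nmul (Nat.shiftRight a 13)
    rw [mul_one] at h4
    refine ⟨Nat.shiftRight a 13 * A + A', Nat.shiftRight a 13 * r + r', ?_, ?_, h4.add h3'⟩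
    · show Nat.shiftRight a 13 * t.get (Nat.shiftLeft (zr n) 64) (Nat.land a 8191) +
        lsum (Nat.shiftLeft (zr n) 64) t l = _
      rw [h1, h1']
      ring
    · show _ ≤ 8191 * (Nat.shiftRight a 13 + csum l)
      have h5 := Nat.mul_le_mul_left (Nat.shiftRight a 13) h2
      rw [mul_add, mul_comm 8191 (Nat.shiftRight a 13)]
      omega

theorem SV.pv {w S : ℕ} (h : SV c n w S) (hw : w ≤ 524287) : PV c n w (Nat.shiftRight S 64) := by
  obtain ⟨A, r, h1, h2, h3⟩ := h
  have h4 : S / 18446744073709551616 = A := by omega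
  rw [shr64, h4]
  exact h3

theorem linK_sound (t : Tr) (ht : t.All (ZS c n)) (a b : List ℕ) (k : ℕ → Bool)
    (h : linK (Nat.shiftLeft (zr n) 64) (zr n) t a b false k = true) :
    ∃ V, (Nat.land V (hm n) = 0 → ZR c n HH V) ∧ k V = true := by
  simp only [linK, frc_eq] at h
  cases h1 : Nat.ble (Nat.add (Nat.add (csum a) (csum b)) 2) 524287
  · rw [h1, cond_false] at h
    exact absurd h (by simp)
  rw [h1, cond_true] at h
  have h1' : csum a + csum b + 2 ≤ 524287 := Nat.le_of_ble_eq_true h1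
  have hz := (ZR.zr (c := c) n).pv
  have hX := ((lsum_sv t ht a).pv (by omega)).add (hz.nmul (csum b + 1))
  have hY := ((lsum_sv t ht b).pv (by omega)).add (hz.nmul (csum a))
  rw [mul_one] at hX hY
  cases h2 : Nat.ble (Nat.add (Nat.shiftRight (lsum (Nat.shiftLeft (zr n) 64) t b) 64)
      (Nat.mul (csum a) (zr n)))
      (Nat.add (Nat.shiftRight (lsum (Nat.shiftLeft (zr n) 64) t a) 64)
        (Nat.mul (Nat.succ (csum b)) (zr n)))
  · rw [h2, cond_false] at h
    exact absurd h (by simp)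
  rw [h2, cond_true] at h
  exact ⟨_, fun h3 => PV.diff hX hY h1' (Nat.le_of_ble_eq_true h2) rfl h3, h⟩

theorem stor_sound (t : Tr) (ht : t.All (ZS c n)) (j V : ℕ)
    (hV : Nat.land V (hm n) = 0 → ZR c n HH V) (k : Tr → Bool)
    (h : stor (Nat.shiftLeft (hm n) 64) t j V k = true) :
    ∃ t' : Tr, t'.All (ZS c n) ∧ k t' = true := by
  simp only [stor, frc_eq] at h
  cases h3 : Nat.beq (Nat.land (salt V j) (Nat.shiftLeft (hm n) 64)) 0
  · rw [h3, cond_false] at h
    exact absurd h (by simp)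
  rw [h3, cond_true] at h
  have h4 := Nat.eq_of_beq_eq_true h3
  have h5 : Nat.land V (hm n) = 0 := by
    have h6 : (salt V j &&& (hm n <<< 64)) >>> 64 = (0 : ℕ) >>> 64 := congrArg (· >>> 64) h4
    rw [Nat.shiftRight_and_distrib, Nat.shiftLeft_shiftRight, Nat.zero_shiftRight] at h6
    have h7 : salt V j >>> 64 = V := by
      have h8 : salt V j = V * 18446744073709551616 + Nat.land j 8191 := by
        show Nat.shiftLeft V 64 + Nat.land j 8191 = _
        rw [shl64]
      have h9 := land_le j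
      show Nat.shiftRight (salt V j) 64 = V
      rw [shr64, h8]
      omega
    rw [h7] at h6
    exact h6
  exact Tr.set_all (salt_zs (hV h5) j) t ht _ _ h

/-- a source of valid rows (up to the digit check) -/
def Good {α : Type} (c : ℕ → C) (n : ℕ) (S : α → (ℕ → Bool) → Bool) : Prop :=
  ∀ e k, S e k = true → ∃ V, (Nat.land V (hm n) = 0 → ZR c n HH V) ∧ k V = true

theorem run_sound {α : Type} {S : α → (ℕ → Bool) → Bool} (hS : Good c n S)
    (fin : Tr → Bool) (p : List (Ins α)) (t : Tr) (j : ℕ) (ht : t.All (ZS c n))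
    (h : run (zr n) (hm n) S fin p t j = true) : ∃ t' : Tr, t'.All (ZS c n) ∧ fin t' = true := by
  induction p generalizing t j with
  | nil => exact ⟨t, ht, h⟩
  | cons s p ih =>
    cases s with
    | lin a b =>
      have h : (frc j fun j' => linK (Nat.shiftLeft (zr n) 64) (zr n) t a b false (fun V =>
        stor (Nat.shiftLeft (hm n) 64) t j' V (fun t' => run (zr n) (hm n) S fin p t'
          (Nat.succ j')))) = true := h
      rw [frc_eq] at h
      obtain ⟨V, h1, h2⟩ := linK_sound t ht a b _ h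
      obtain ⟨t', h3, h4⟩ := stor_sound t ht _ _ h1 _ h2
      exact ih _ _ h3 h4
    | src e =>
      have h : (frc j fun j' => S e (fun V =>
        stor (Nat.shiftLeft (hm n) 64) t j' V (fun t' => run (zr n) (hm n) S fin p t'
          (Nat.succ j')))) = true := h
      rw [frc_eq] at h
      obtain ⟨V, h1, h2⟩ := hS e _ h
      obtain ⟨t', h3, h4⟩ := stor_sound t ht _ _ h1 _ h2
      exact ih _ _ h3 h4

theorem load_sound (k : Tr → ℕ → Bool) (L : List ℕ) (hL : ∀ v ∈ L, ZR c n HH v) (t : Tr)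
    (j : ℕ) (ht : t.All (ZS c n)) (h : load k L t j = true) :
    ∃ (t' : Tr) (j' : ℕ), t'.All (ZS c n) ∧ k t' j' = true := by
  induction L generalizing t j with
  | nil => exact ⟨t, j, ht, h⟩
  | cons v L ih =>
    have h : (frc j fun j' => frc (salt v j') fun U =>
      t.set U j' (fun t' => load k L t' (Nat.succ j'))) = true := h
    rw [frc_eq, frc_eq] at h
    obtain ⟨t', h3, h4⟩ := Tr.set_all (salt_zs (hL v List.mem_cons_self) j) t ht _ _ h
    exact ih (fun w hw => hL w (List.mem_cons_of_mem _ hw)) _ _ h3 h4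

/-- read a row -/
noncomputable def Tr.row (z : ℕ) (t : Tr) (i : ℕ) : ℕ :=
  Nat.shiftRight (t.get (Nat.shiftLeft z 64) i) 64

theorem Tr.row_zr (t : Tr) (ht : t.All (ZS c n)) (i : ℕ) : ZR c n HH (t.row (zr n) i) := by
  obtain ⟨A, r, h1, h2, h3⟩ := Tr.get_all zero_zs t ht i
  have h4 : t.row (zr n) i = A := by
    show Nat.shiftRight _ 64 = A
    rw [shr64, h1]
    omega
  rw [h4]
  exact h3

end sound

end VRC.Pk
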