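import Mathlib
import Pool.Agent.Work.MP_332575_al.Bd.B06
import Pool.Agent.Work.MP_332575_al.Pk.P2d
import Pool.Agent.Work.MP_332575_al.Pk.E01
import Pool.Agent.Work.MP_332575_al.Pk.E02
import Pool.Agent.Work.MP_332575_al.Pk.E03
import Pool.Agent.Work.MP_332575_al.Pk.E04
import Pool.Agent.Work.MP_332575_al.Pk.E05
import Pool.Agent.Work.MP_332575_al.Pk.E06

set_option autoImplicit false

/-! Phase 2 of the elimination: the other tails are removed by a change of generators. -/

namespace VRC.Pk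

open Finset

attribute [local irreducible] B NN

/-- the literals of a checked chunk are trivial rows -/
theorem chunk_zr {E C : Type} [Group E] [CommGroup C] {ι : C →* E} {t g : ℕ → E} {c : ℕ → C}
    {D : Dat} (hC : Cen D ι t g c) (hT : Tab D ι t g c) (h0 : ∀ k < 1296, c k = 1) (fuel : ℕ)
    (l : List (Eqn × ℕ))
    (h : ckl (mkL D.R D.M 0) D fuel (bias 574) (hmask 574) l = true) :
    ∀ q ∈ l, ZR (fun m => c (1296 + m)) 574 HH q.2 := by
  induction l with
  | nil => intro q hq; exact absurd hq (by simp)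
  | cons a l ih =>
    have h : and (ck2 (mkL D.R D.M 0) D fuel (bias 574) (hmask 574) a)
      (ckl (mkL D.R D.M 0) D fuel (bias 574) (hmask 574) l) = true := h
    rw [Bool.and_eq_true] at h
    intro q hq
    rcases List.mem_cons.mp hq with rfl | hq
    · have h1 : and (q.1.ok D) (and (evl (mkL D.R D.M 0) D.R fuel q.1).2
        (and (Nat.blt (evl (mkL D.R D.M 0) D.R fuel q.1).1.b 549755813888)
        (and (Nat.beq (Nat.add q.2 (Nat.shiftRight (evl (mkL D.R D.M 0) D.R fuel q.1).1.n 51840))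
          (Nat.add (Nat.shiftRight (evl (mkL D.R D.M 0) D.R fuel q.1).1.p 51840) (bias 574)))
          (Nat.beq (Nat.land q.2 (hmask 574)) 0)))) = true := h.1
      rw [Bool.and_eq_true, Bool.and_eq_true, Bool.and_eq_true, Bool.and_eq_true] at h1
      obtain ⟨h2, h3, h4, h5, h6⟩ := h1
      rw [Nat.blt_eq] at h4
      have hb : (evl (mkL D.R D.M 0) D.R fuel q.1).1.b < B := by
        rw [B_eq]
        exact lt_trans h4 (by norm_num)
      exact row2 (evl_sound hC hT fuel q.1 h2 h3 hb) h4 h0 (Nat.eq_of_beq_eq_true h5)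
        (Nat.eq_of_beq_eq_true h6)
    · exact ih h.2 q hq

/-- the input rows of phase 2 -/
def in2 : List ℕ := (evl01 ++ evl02 ++ evl03 ++ evl04 ++ evl05 ++ evl06).map (fun q => q.2)

theorem in2_zr {E C : Type} [Group E] [CommGroup C] {ι : C →* E} {t g : ℕ → E} {c : ℕ → C}
    (hC : Cen D36 ι t g c) (h0 : ∀ k < 1296, c k = 1) :
    ∀ v ∈ in2, ZR (fun m => c (1296 + m)) 574 HH v := by
  have hT := Tab36 hC
  intro v hv
  obtain ⟨q, hq, rfl⟩ := List.mem_map.mp hv
  simp only [List.mem_append] at hq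
  rcases hq with ((((hq | hq) | hq) | hq) | hq) | hq
  · exact chunk_zr hC hT h0 100 _ evt01 q hq
  · exact chunk_zr hC hT h0 100 _ evt02 q hq
  · exact chunk_zr hC hT h0 100 _ evt03 q hq
  · exact chunk_zr hC hT h0 100 _ evt04 q hq
  · exact chunk_zr hC hT h0 100 _ evt05 q hq
  · exact chunk_zr hC hT h0 100 _ evt06 q hq

/-- no external rows in phase 2 -/
def nos (_ : Eqn) (_ : ℕ → Bool) : Bool := false

theorem nos_good {C : Type} [CommGroup C] (c : ℕ → C) (n : ℕ) : Good c n nos := by
  intro e k h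
  exact absurd h (by simp [nos])

theorem run2 : load (fun t j => run (zr 574) (hm 574) nos
    (fun t' => finT D36 W36L (zr 574) t' out2 0) prog2 t j) in2 Tr.nil 0 = true := by
  decide +kernel

theorem out2_len : out2.length = 574 := by decide +kernel

/-- phase 2 -/
theorem phase2 (E C : Type) [Group E] [CommGroup C] (ι : C →* E) (t g : ℕ → E) (c : ℕ → C)
    (hC : Cen D36 ι t g c) (h0 : ∀ k < 1296, c k = 1) : ∀ k < 574, ∃ row,
      ZR (fun m => c (1296 + m)) 574 HH row ∧ rowOK D36 W36L (zr 574) k row = true := by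
  intro k hk
  obtain ⟨t1, j1, h1, h2⟩ := load_sound _ in2 (in2_zr hC h0) Tr.nil 0 trivial run2
  obtain ⟨t2, h3, h4⟩ := run_sound (nos_good _ 574) _ _ t1 j1 h1 h2
  exact finT_sound t2 h3 out2 0 h4 k (Nat.zero_le _) (by rw [out2_len]; omega)

/-- THE CERTIFICATE -/
theorem cert36 : Cert D36 (Wf W36L) := cert_of D36 W36L D36_rg W36L_rg phase1 phase2

end VRC.Pk
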