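import Mathlib
import Pool.Agent.Work.MP_332575_al.Bd.B04
import Pool.Agent.Work.MP_332575_al.Bd.B05
import Pool.Agent.Work.MP_332575_al.Bd.B01

/-! # The faithful affine representation of the group of dimension 36 -/

set_option autoImplicit false
set_option maxRecDepth 100000

namespace VRC.Cx

open Matrix VRC.Pk

instance (d : ℕ) (l : Lt') : Decidable (okR d l) := by unfold okR; infer_instance
instance (C : ℕ) (l : Lt') : Decidable (okB C l) := by unfold okB; infer_instance
instance (P : List ℕ) : Decidable (okC P) := by unfold okC; infer_instance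

theorem ok36 : Ok 36 256 D36.Ls D36.Bc D36.Z0 VRC.Pk.D36 where
  len := by decide +kernel
  row := by decide +kernel
  bl := by decide +kernel
  bn := by decide +kernel
  zl := by decide +kernel
  zz := by decide +kernel
  ml := by decide +kernel
  mr := by decide +kernel
  rc := by decide +kernel
  rl := by decide +kernel
  ry := by decide +kernel
  rb := by decide +kernel

theorem ok15 : Ok 15 256 D15.Ls D15.Bc D15.Z0 VRC.Pk.D36 where
  len := by decide +kernel
  row := by decide +kernel
  bl := by decide +kernel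
  bn := by decide +kernel
  zl := by decide +kernel
  zz := by decide +kernel
  ml := by decide +kernel
  mr := by decide +kernel
  rc := by decide +kernel
  rl := by decide +kernel
  ry := by decide +kernel
  rb := by decide +kernel

/-! ### Dual basis -/

lemma dtR_eq (a b : List ℤ) (h : a.length = b.length) (s : ℤ) :
    dtR a b s = s + ∑ i ∈ Finset.range a.length, a.getD i 0 * b.getD i 0 := by
  induction a generalizing b s with
  | nil => simp; rfl
  | cons x a ih =>
    cases b with
    | nil => simp at h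
    | cons y b =>
      show fi (Int.add s (Int.mul x y)) (dtR a b) = _
      rw [fi_eq, ih b (by simpa using h), List.length_cons, Finset.sum_range_succ']
      simp only [List.getD_cons_succ, List.getD_cons_zero]
      show s + x * y + _ = _
      ring

lemma chkD1_spec (c : List ℤ) (D j : ℕ) (bs : List (List ℤ)) (i0 : ℕ)
    (h : chkD1 c D j bs i0 = true) :
    ∀ i < bs.length, dtR c (bs.getD i []) 0 = if i0 + i = j then (D : ℤ) else 0 := by
  induction bs generalizing i0 with
  | nil => intro i hi; simp at hi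
  | cons b bs ih =>
    intro i hi
    have h' : cond (ibeq (dtR c b (Int.ofNat 0))
      (cond (Nat.beq i0 j) (Int.ofNat D) (Int.ofNat 0)))
      (fc (Nat.succ i0) (chkD1 c D j bs)) false = true := h
    rw [fc_eq] at h'
    cases h1 : ibeq (dtR c b (Int.ofNat 0))
      (cond (Nat.beq i0 j) (Int.ofNat D) (Int.ofNat 0)) with
    | false => rw [h1] at h'; exact absurd h' (by simp)
    | true =>
      rw [h1] at h'
      cases i with
      | zero =>
        have h2 := ibeq_eq h1
        show dtR c b 0 = _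
        refine h2.trans ?_
        by_cases hj : i0 = j
        · subst hj; simp
        · have : Nat.beq i0 j = false := by
            cases hb : Nat.beq i0 j with
            | false => rfl
            | true => exact absurd (Nat.eq_of_beq_eq_true hb) hj
          rw [this, add_zero, if_neg hj]
          rfl
      | succ i =>
        have := ih (i0 + 1) h' i (by simpa using hi)
        rw [show i0 + (i + 1) = i0 + 1 + i by ring]
        exact this

lemma chkD_spec (D : ℕ) (bs cs : List (List ℤ)) (j0 : ℕ) (h : chkD D bs cs j0 = true) :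
    ∀ j < cs.length, chkD1 (cs.getD j []) D (j0 + j) bs 0 = true := by
  induction cs generalizing j0 with
  | nil => intro j hj; simp at hj
  | cons c cs ih =>
    intro j hj
    have h' : cond (chkD1 c D j0 bs 0) (fc (Nat.succ j0) (chkD D bs cs)) false = true := h
    rw [fc_eq] at h'
    cases h1 : chkD1 c D j0 bs 0 with
    | false => rw [h1] at h'; exact absurd h' (by simp)
    | true =>
      rw [h1] at h'
      cases j with
      | zero => exact h1
      | succ j =>
        rw [show j0 + (j + 1) = j0 + 1 + j by ring]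
        exact ih (j0 + 1) h' j (by simpa using hj)

theorem c_dual : chkD 336 VRC.Cx.D36.Bc Cl 0 = true := by decide +kernel

theorem Cl_len : Cl.length = 36 ∧ ∀ c ∈ Cl, c.length = 36 := by decide +kernel

theorem dual (j i : ℕ) (hj : j < 36) (hi : i < 36) :
    ∑ c : Fin 36, (Cl.getD j []).getD c.1 0 * bv 36 VRC.Cx.D36.Bc i c =
      if i = j then 336 else 0 := by
  have h1 := chkD_spec _ _ _ _ c_dual j (by rw [Cl_len.1]; exact hj)
  have h2 := chkD1_spec _ _ _ _ _ h1 i (by rw [ok36.bn]; exact hi)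
  have hl : (Cl.getD j []).length = 36 := by
    rw [List.getD_eq_getElem _ _ (by rw [Cl_len.1]; exact hj)]
    exact Cl_len.2 _ (List.getElem_mem _)
  have hb : (VRC.Cx.D36.Bc.getD i []).length = 36 := by
    rw [List.getD_eq_getElem _ _ (by rw [ok36.bn]; exact hi)]
    exact ok36.bl _ (List.getElem_mem _)
  rw [dtR_eq _ _ (by rw [hl, hb]), hl, zero_add, zero_add, zero_add] at h2
  rw [← Fin.sum_univ_eq_sum_range
    (fun k => (Cl.getD j []).getD k 0 * (VRC.Cx.D36.Bc.getD i []).getD k 0)] at h2
  exact h2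

set_option exponentiation.threshold 300 in
lemma hs256 : 2 * (((256 : ℕ) : ℤ) ^ 26 + ((256 : ℕ) : ℤ) ^ 2) < 2 ^ 280 := by norm_num

/-- the representation of dimension 36 -/
noncomputable def rho36 : XG VRC.Pk.D36 →* (Am 36)ˣ :=
  lift D36_wf (mdl_of ok36 (by norm_num) hs256 VRC.Cx.D36.c_inv VRC.Cx.D36.c_acts
    VRC.Cx.D36.c_rules)

/-- the representation of dimension 15 -/
noncomputable def rho15 : XG VRC.Pk.D36 →* (Am 15)ˣ :=
  lift D36_wf (mdl_of ok15 (by norm_num) hs256 VRC.Cx.D15.c_inv VRC.Cx.D15.c_acts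
    VRC.Cx.D15.c_rules)

/-- R1: the lattice is free abelian on the `t_i` -/
theorem rep_inj (v : ℕ → ℤ) (h : tp (xt VRC.Pk.D36) v 36 = 1) : ∀ i < 36, v i = 0 := by
  have h1 := congrArg rho36 h
  rw [map_tp, map_one, tp_congr _ (fun i => Am.trU (bv 36 VRC.Cx.D36.Bc i)) _ _
    (fun i hi => lift_t D36_wf _ i hi), tp_trU, ← Am.trU_zero] at h1
  have h2 := Am.trU_inj h1
  intro j hj
  have h3 : ∑ c : Fin 36, (Cl.getD j []).getD c.1 0 *
      (∑ i ∈ Finset.range 36, v i • bv 36 VRC.Cx.D36.Bc i) c = 0 := by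
    rw [h2]; simp
  have h4 : ∑ c : Fin 36, (Cl.getD j []).getD c.1 0 *
      (∑ i ∈ Finset.range 36, v i • bv 36 VRC.Cx.D36.Bc i) c =
      ∑ i ∈ Finset.range 36, v i *
        ∑ c : Fin 36, (Cl.getD j []).getD c.1 0 * bv 36 VRC.Cx.D36.Bc i c := by
    simp only [Finset.sum_apply, Pi.smul_apply, smul_eq_mul, Finset.mul_sum]
    rw [Finset.sum_comm]
    refine Finset.sum_congr rfl fun i _ => Finset.sum_congr rfl fun c _ => by ring
  rw [h4, Finset.sum_congr rfl (g := fun i => v i * if i = j then 336 else 0)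
    (fun i hi => by rw [dual j i hj (Finset.mem_range.mp hi)])] at h3
  rw [Finset.sum_eq_single j] at h3
  · simpa using h3
  · intro i _ hij; simp [hij]
  · intro h5; exact absurd (Finset.mem_range.mpr hj) h5

/-- R2: linear part in dimension 15 -/
noncomputable def lin15 : XG VRC.Pk.D36 →* Matrix (Fin 15) (Fin 15) ℤ :=
  Am.linH.comp ((Units.coeHom (Am 15)).comp rho15)

/-- translation part in dimension 15 -/
noncomputable def tr15 (x : XG VRC.Pk.D36) : Fin 15 → ℤ := (rho15 x).val.t

theorem tr15_mul (x y : XG VRC.Pk.D36) : tr15 (x * y) = tr15 x + lin15 x *ᵥ tr15 y := by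
  show (rho15 (x * y)).val.t = _
  rw [map_mul]
  rfl

theorem lin15_t (i : ℕ) (hi : i < 36) : lin15 (xt VRC.Pk.D36 i) = 1 := by
  show (rho15 (xt VRC.Pk.D36 i)).val.L = 1
  rw [rho15, lift_t D36_wf _ i hi]
  rfl

theorem tr15_t (i : ℕ) (hi : i < 36) :
    tr15 (xt VRC.Pk.D36 i) = vc 15 (VRC.Cx.D15.Bc.getD i []) := by
  show (rho15 (xt VRC.Pk.D36 i)).val.t = _
  rw [rho15, lift_t D36_wf _ i hi]
  rfl

lemma rho15_g (y : ℕ) (hy : y < 13) :
    (rho15 (xg VRC.Pk.D36 y)).val = toAm 15 (lkp VRC.Cx.D15.Ls y) := by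
  rw [rho15, lift_g D36_wf _ y hy]
  exact gU_val ok15 _ hs256 VRC.Cx.D15.c_inv y hy

theorem c_tr15 : ∀ y : Fin 13, ∀ i : Fin 15,
    ((lkp VRC.Cx.D15.Ls y.1).reverse.getD i.1 ([], 0)).2 = (T15.getD y.1 []).getD i.1 0 := by
  decide +kernel

theorem tr15_g (y : ℕ) (hy : y < 13) : tr15 (xg VRC.Pk.D36 y) = vc 15 (T15.getD y []) := by
  show (rho15 (xg VRC.Pk.D36 y)).val.t = _
  rw [rho15_g y hy]
  funext i
  exact c_tr15 ⟨y, hy⟩ i

theorem c_lin15 : ∀ y : Fin 11, ∀ i j : Fin 15,
    (((((lkp VRC.Cx.D15.Ls y.1).reverse.getD i.1 ([], 0)).1.filter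
      fun p => p.1 == j.1).map fun p => p.2).sum) = if i = j then 1 else 0 := by
  decide +kernel

theorem lin15_k (y : ℕ) (hy : y < 11) : lin15 (xg VRC.Pk.D36 y) = 1 := by
  show (rho15 (xg VRC.Pk.D36 y)).val.L = 1
  rw [rho15_g y (by omega)]
  ext i j
  rw [Matrix.one_apply]
  exact c_lin15 ⟨y, hy⟩ i j

theorem c_lin11 : ∀ i j : Fin 15,
    (((((lkp VRC.Cx.D15.Ls 11).reverse.getD i.1 ([], 0)).1.filter
      fun p => p.1 == j.1).map fun p => p.2).sum) = (A11.getD i.1 []).getD j.1 0 := by
  decide +kernel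

theorem c_lin12 : ∀ i j : Fin 15,
    (((((lkp VRC.Cx.D15.Ls 12).reverse.getD i.1 ([], 0)).1.filter
      fun p => p.1 == j.1).map fun p => p.2).sum) = (A12.getD i.1 []).getD j.1 0 := by
  decide +kernel

theorem lin15_a : lin15 (xg VRC.Pk.D36 11) = VRC.Tor.mat 15 A11 := by
  show (rho15 (xg VRC.Pk.D36 11)).val.L = _
  rw [rho15_g 11 (by omega)]
  ext i j
  exact c_lin11 i j

theorem lin15_b : lin15 (xg VRC.Pk.D36 12) = VRC.Tor.mat 15 A12 := by
  show (rho15 (xg VRC.Pk.D36 12)).val.L = _
  rw [rho15_g 12 (by omega)]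
  ext i j
  exact c_lin12 i j


end VRC.Cx
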