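import Mathlib
import Pool.Agent.Work.MP_332575_al.Bd.B04
import Pool.Agent.Work.MP_332575_al.Bd.B01

set_option autoImplicit false

/-! From the certificate to sections of central extensions. -/

namespace VRC.Pk

open Finset

namespace SecX

variable {E C : Type} [Group E] [CommGroup C] {ι : C →* E}

/-- multiplying the generators of the lattice by central elements -/
theorem tp_twist (hc : ∀ (z : C) (x : E), ι z * x = x * ι z) (t : ℕ → E) (τ : ℕ → C)
    (v : ℕ → ℤ) (k : ℕ) :
    tp (fun i => t i * ι (τ i)) v k = tp t v k * ι (∏ i ∈ range k, τ i ^ v i) := by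
  induction k with
  | zero => simp [tp]
  | succ k ih =>
    have h1 : Commute (t k) (ι (τ k)) := (hc (τ k) (t k)).symm
    rw [tp, tp, ih, h1.mul_zpow, prod_range_succ, map_mul, map_zpow]
    have h2 := hc (∏ i ∈ range k, τ i ^ v i) (t k ^ v k)
    calc tp t v k * ι (∏ i ∈ range k, τ i ^ v i) * (t k ^ v k * ι (τ k) ^ v k)
        = tp t v k * (ι (∏ i ∈ range k, τ i ^ v i) * t k ^ v k) * ι (τ k) ^ v k := by group
      _ = _ := by rw [h2]; group

/-- multiplying the letters by central elements -/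
theorem wv_twist (hc : ∀ (z : C) (x : E), ι z * x = x * ι z) (g : ℕ → E) (σ : ℕ → C)
    (w : List ℕ) :
    wv (fun y => g y * ι (σ y)) w = wv g w * ι ((w.map σ).prod) := by
  induction w with
  | nil => simp [wv]
  | cons y w ih =>
    rw [wv, wv, ih, List.map_cons, List.prod_cons, map_mul]
    have h2 := hc (σ y) (wv g w)
    calc g y * ι (σ y) * (wv g w * ι (w.map σ).prod)
        = g y * (ι (σ y) * wv g w) * ι (w.map σ).prod := by group
      _ = _ := by rw [h2]; group

/-- the product over a word of letters smaller than `n` by multiplicities -/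
theorem prod_count (σ : ℕ → C) (n : ℕ) (w : List ℕ) (hw : ∀ y ∈ w, y < n) :
    (w.map σ).prod = ∏ s ∈ range n, σ s ^ (w.count s : ℤ) := by
  induction w with
  | nil => simp
  | cons y w ih =>
    rw [List.map_cons, List.prod_cons, ih fun z hz => hw z (List.mem_cons_of_mem _ hz)]
    have h1 : ∀ s ∈ range n, σ s ^ ((y :: w).count s : ℤ) =
        (if s = y then σ s else 1) * σ s ^ (w.count s : ℤ) := by
      intro s _
      rw [List.count_cons]
      by_cases h : y = s
      · subst h
        simp only [beq_self_eq_true, if_true]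
        push_cast
        rw [zpow_add_one, mul_comm]
      · rw [if_neg (by simpa using h), if_neg (fun h' => h h'.symm), one_mul, add_zero]
    rw [prod_congr rfl h1, prod_mul_distrib]
    congr 1
    rw [prod_ite_eq' (range n) y σ, if_pos]
    exact mem_range.mpr (hw y List.mem_cons_self)

theorem prod_split (τ : ℕ → C) (e : ℕ → ℤ) :
    ∏ s ∈ range 49, τ s ^ e s = (∏ s ∈ range 36, τ s ^ e s) *
      ∏ y ∈ range 13, τ (36 + y) ^ e (36 + y) := by
  rw [show (49 : ℕ) = 36 + 13 from rfl, prod_range_add]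

end SecX

open SecX in
/-- a model after the change of generators -/
theorem mdl_of_cen {D : Dat} (hD : D.wf = true) (hl : D.R.length ≤ 106) {E C : Type} [Group E]
    [CommGroup C] {ι : C →* E} {t g : ℕ → E} {c : ℕ → C} (h : Cen D ι t g c) (τ : ℕ → C)
    (h1 : ∀ k < 1296, c k = 1)
    (h2 : ∀ k < 574, c (1296 + k) * ∏ s ∈ range 49, τ s ^ eps D k s = 1) :
    Mdl D E (fun i => t i * ι (τ i)) (fun y => g y * ι (τ (36 + y))) := by
  have hc := h.lat.cen
  refine ⟨fun i j hi hj => ?_, fun y i hy hi => ?_, fun r hr => ?_⟩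
  · have h3 := h.lat.com i j hi hj
    rw [h1 (36 * i + j) (by omega), map_one, mul_one] at h3
    have h4 := hc (τ i) (t j)
    have h5 := hc (τ j) (t i)
    have h6 : ι (τ i) * ι (τ j) = ι (τ j) * ι (τ i) := by rw [← map_mul, ← map_mul, mul_comm]
    calc t i * ι (τ i) * (t j * ι (τ j)) = t i * (ι (τ i) * t j) * ι (τ j) := by group
      _ = (t i * t j) * (ι (τ i) * ι (τ j)) := by rw [h4]; group
      _ = (t j * t i) * (ι (τ j) * ι (τ i)) := by rw [h3, h6]
      _ = t j * (t i * ι (τ j)) * ι (τ i) := by group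
      _ = t j * (ι (τ j) * t i) * ι (τ i) := by rw [h5]
      _ = _ := by group
  · have h3 := h.act y i hy hi
    have h4 := h2 (36 * y + i) (by omega)
    have h5 : (36 * y + i) / 36 = y := by omega
    have h6 : (36 * y + i) % 36 = i := by omega
    have h7 : ∏ s ∈ range 49, τ s ^ eps D (36 * y + i) s =
        τ i * (∏ s ∈ range 36, τ s ^ D.mv y i s)⁻¹ := by
      rw [prod_split]
      have h8 : ∀ s ∈ range 36, τ s ^ eps D (36 * y + i) s =
          (if s = i then τ s else 1) * (τ s ^ D.mv y i s)⁻¹ := by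
        intro s hs
        rw [mem_range] at hs
        rw [eps, if_pos (by omega), h5, h6, if_pos hs]
        by_cases h : s = i
        · rw [if_pos h, if_pos h, zpow_sub, zpow_one]
        · rw [if_neg h, if_neg h, zero_sub, zpow_neg, one_mul]
      have h9 : ∀ s ∈ range 13, τ (36 + s) ^ eps D (36 * y + i) (36 + s) = 1 := by
        intro s hs
        rw [eps, if_pos (by omega), h6, if_neg (by omega), if_neg (by omega), sub_zero, zpow_zero]
      rw [prod_congr rfl h8, prod_congr rfl h9, prod_const_one, mul_one, prod_mul_distrib,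
        prod_inv_distrib]
      congr 1
      rw [prod_ite_eq' (range 36) i τ, if_pos (mem_range.mpr hi)]
    rw [h7] at h4
    show g y * ι (τ (36 + y)) * (t i * ι (τ i)) * (g y * ι (τ (36 + y)))⁻¹ = _
    rw [tp_twist hc, mul_inv_rev]
    have e1 := hc (τ (36 + y)) (t i)
    have e2 := hc (τ i) ((g y)⁻¹)
    have e3 := hc (τ (36 + y)) (ι (τ i) * (ι (τ (36 + y)))⁻¹)
    have e4 : c (1296 + (36 * y + i)) * τ i = ∏ s ∈ range 36, τ s ^ D.mv y i s := by
      rw [← mul_assoc] at h4
      exact mul_inv_eq_one.mp h4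
    calc g y * ι (τ (36 + y)) * (t i * ι (τ i)) * ((ι (τ (36 + y)))⁻¹ * (g y)⁻¹)
        = g y * (ι (τ (36 + y)) * t i) * ι (τ i) * (ι (τ (36 + y)))⁻¹ * (g y)⁻¹ := by group
      _ = g y * t i * (ι (τ (36 + y)) * (ι (τ i) * (ι (τ (36 + y)))⁻¹)) * (g y)⁻¹ := by
          rw [e1]; group
      _ = g y * t i * (ι (τ i) * (g y)⁻¹) := by rw [e3]; group
      _ = (g y * t i * (g y)⁻¹) * ι (τ i) := by rw [e2]; group
      _ = tp t (D.mv y i) 36 * (ι (c (1296 + (36 * y + i))) * ι (τ i)) := by rw [h3]; group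
      _ = _ := by rw [← map_mul, e4]
  · obtain ⟨l, hl1, rfl⟩ := List.getElem_of_mem hr
    have hn : nthR D.R l = D.R[l] := by
      rw [nthR, List.getD_eq_getElem _ _ hl1]
    have h3 := h.rul l hl1
    have h4 := h2 (468 + l) (by omega)
    rw [hn] at h3
    obtain ⟨hU, hV⟩ := wf_mem hD _ hr
    set r := D.R[l] with hr'
    set σ : ℕ → C := fun y => τ (36 + y) with hσ
    have h7 : ∏ s ∈ range 49, τ s ^ eps D (468 + l) s =
        (∏ s ∈ range 36, τ s ^ r.vc s)⁻¹ * ((r.U.map σ).prod * ((r.V.map σ).prod)⁻¹) := by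
      rw [prod_split]
      have h8 : ∀ s ∈ range 36, τ s ^ eps D (468 + l) s = (τ s ^ r.vc s)⁻¹ := by
        intro s hs
        rw [mem_range] at hs
        rw [eps, if_neg (by omega), if_pos hs, show 468 + l - 468 = l by omega, hn, zpow_neg]
      have h9 : ∀ s ∈ range 13, τ (36 + s) ^ eps D (468 + l) (36 + s) =
          σ s ^ (r.U.count s : ℤ) * (σ s ^ (r.V.count s : ℤ))⁻¹ := by
        intro s hs
        rw [eps, if_neg (by omega), if_neg (by omega), show 468 + l - 468 = l by omega, hn,
          show 36 + s - 36 = s by omega, zpow_sub]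
      rw [prod_congr rfl h8, prod_congr rfl h9, prod_inv_distrib, prod_mul_distrib,
        prod_inv_distrib, ← prod_count σ 13 r.U hU, ← prod_count σ 13 r.V hV]
    rw [h7] at h4
    show wv (fun y => g y * ι (τ (36 + y))) r.U = _
    have e0 : ∀ w : List ℕ, wv (fun y => g y * ι (τ (36 + y))) w = wv g w * ι ((w.map σ).prod) :=
      fun w => wv_twist hc g σ w
    rw [tp_twist hc, e0, e0, h3]
    have e5 : c (1764 + l) * (r.U.map σ).prod =
        (∏ s ∈ range 36, τ s ^ r.vc s) * (r.V.map σ).prod := by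
      rw [show 1296 + (468 + l) = 1764 + l by omega] at h4
      have h10 : c (1764 + l) * (r.U.map σ).prod *
          ((∏ s ∈ range 36, τ s ^ r.vc s) * (r.V.map σ).prod)⁻¹ = 1 := by
        rw [mul_inv, ← h4]
        simp only [mul_comm, mul_assoc]
      exact mul_inv_eq_one.mp h10
    have e1 := hc (c (1764 + l)) (wv g r.V)
    have e2 := hc (∏ s ∈ range 36, τ s ^ r.vc s) (wv g r.V)
    calc tp t r.vc 36 * ι (c (1764 + l)) * wv g r.V * ι (r.U.map σ).prod
        = tp t r.vc 36 * (ι (c (1764 + l)) * wv g r.V) * ι (r.U.map σ).prod := by group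
      _ = tp t r.vc 36 * wv g r.V * (ι (c (1764 + l)) * ι (r.U.map σ).prod) := by rw [e1]; group
      _ = tp t r.vc 36 * wv g r.V * (ι (∏ s ∈ range 36, τ s ^ r.vc s) *
            ι (r.V.map σ).prod) := by rw [← map_mul, e5, map_mul]
      _ = tp t r.vc 36 * (wv g r.V * ι (∏ s ∈ range 36, τ s ^ r.vc s)) *
            ι (r.V.map σ).prod := by group
      _ = _ := by rw [← e2]; group

theorem D36_len : D36.R.length ≤ 106 := by decide +kernel

/-- every central extension of `XG D36` splits if there is a certificate -/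
theorem sec (W : ℕ → ℕ → ℤ) (h : Cert D36 W) : ∀ (E : Type) [Group E] (p : E →* XG D36),
    Function.Surjective p → p.ker ≤ Subgroup.center E →
    ∃ s : XG D36 →* E, ∀ x, p (s x) = x := by
  intro E _ p hp hk
  choose t0 ht0 using fun i => hp (xt D36 i)
  choose g0 hg0 using fun y => hp (xg D36 y)
  have hM := XG_mdl D36
  let _ : CommGroup (Subgroup.center E) :=
    { (Subgroup.center E).toGroup with
      mul_comm := fun a b => Subtype.ext (Subgroup.mem_center_iff.mp b.2 a.1) }
  set ι : Subgroup.center E →* E := (Subgroup.center E).subtype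
  have hcen : ∀ (z : Subgroup.center E) (x : E), ι z * x = x * ι z := fun z x =>
    (Subgroup.mem_center_iff.mp z.2 x).symm
  -- an element of the kernel is central
  have hker : ∀ a b : E, p a = p b → ∃ z : Subgroup.center E, a = b * ι z ∧ p (ι z) = 1 := by
    intro a b hab
    have h1 : b⁻¹ * a ∈ p.ker := by rw [MonoidHom.mem_ker, map_mul, map_inv, hab, inv_mul_cancel]
    exact ⟨⟨b⁻¹ * a, hk h1⟩, by show a = b * (b⁻¹ * a); group, MonoidHom.mem_ker.mp h1⟩
  have hA : ∀ i j : ℕ, ∃ z : Subgroup.center E, (i < 36 → j < i → t0 i * t0 j = t0 j * t0 i * ι z) ∧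
      p (ι z) = 1 ∧ (i ≤ j → z = 1) := by
    intro i j
    by_cases hi : i < 36
    · by_cases hj : j < i
      · obtain ⟨z, hz, hz'⟩ := hker (t0 i * t0 j) (t0 j * t0 i) (by
          rw [map_mul, map_mul, ht0, ht0, hM.comm i j hi hj])
        exact ⟨z, fun _ _ => hz, hz', fun h => by omega⟩
      · exact ⟨1, fun _ h => absurd h hj, by simp, fun _ => rfl⟩
    · exact ⟨1, fun h => absurd h hi, by simp, fun _ => rfl⟩
  have hB : ∀ y i : ℕ, ∃ z : Subgroup.center E, (y < 13 → i < 36 → g0 y * t0 i * (g0 y)⁻¹ =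
      tp t0 (D36.mv y i) 36 * ι z) ∧ p (ι z) = 1 := by
    intro y i
    by_cases hy : y < 13
    · by_cases hi : i < 36
      · obtain ⟨z, hz, hz'⟩ := hker (g0 y * t0 i * (g0 y)⁻¹) (tp t0 (D36.mv y i) 36) (by
          rw [map_mul, map_mul, map_inv, hg0, ht0, hM.act y i hy hi, map_tp]
          exact tp_congr _ _ _ _ fun i _ => (ht0 i).symm)
        exact ⟨z, fun _ _ => hz, hz'⟩
      · exact ⟨1, fun _ h => absurd h hi, by simp⟩
    · exact ⟨1, fun h => absurd h hy, by simp⟩
  have hR : ∀ l : ℕ, ∃ z : Subgroup.center E, (l < D36.R.length → wv g0 (nthR D36.R l).U =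
      tp t0 (nthR D36.R l).vc 36 * ι z * wv g0 (nthR D36.R l).V) ∧ p (ι z) = 1 := by
    intro l
    by_cases hl : l < D36.R.length
    · have hmem : nthR D36.R l ∈ D36.R := by
        rw [nthR, List.getD_eq_getElem _ _ hl]
        exact List.getElem_mem hl
      obtain ⟨z, hz, hz'⟩ := hker (wv g0 (nthR D36.R l).U)
        (tp t0 (nthR D36.R l).vc 36 * wv g0 (nthR D36.R l).V) (by
          rw [map_mul, map_wv, map_wv, map_tp, tp_congr _ (xt D36) _ _ (fun i _ => ht0 i),
            wv_congr _ (xg D36) _ (fun y _ => hg0 y), wv_congr _ (xg D36) _ (fun y _ => hg0 y),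
            hM.rul _ hmem])
      refine ⟨z, fun _ => ?_, hz'⟩
      rw [hz, mul_assoc, mul_assoc, hcen]
    · exact ⟨1, fun h => absurd h hl, by simp⟩
  choose cA hA1 hA2 hA3 using hA
  choose cB hB1 hB2 using hB
  choose cR hR1 hR2 using hR
  set c : ℕ → Subgroup.center E := fun k => if k < 1296 then cA (k / 36) (k % 36) else
    if k < 1764 then cB ((k - 1296) / 36) ((k - 1296) % 36) else cR (k - 1764) with hcdef
  have hpc : ∀ k, p (ι (c k)) = 1 := by
    intro k
    simp only [hcdef]
    split_ifs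
    · exact hA2 _ _
    · exact hB2 _ _
    · exact hR2 _
  have hcA : ∀ i j, i < 36 → j < 36 → c (36 * i + j) = cA i j := by
    intro i j hi hj
    simp only [hcdef]
    rw [if_pos (by omega), show (36 * i + j) / 36 = i by omega, show (36 * i + j) % 36 = j by omega]
  have hcB : ∀ y i, y < 13 → i < 36 → c (1296 + (36 * y + i)) = cB y i := by
    intro y i hy hi
    simp only [hcdef]
    rw [if_neg (by omega), if_pos (by omega),
      show (1296 + (36 * y + i) - 1296) / 36 = y by omega,
      show (1296 + (36 * y + i) - 1296) % 36 = i by omega]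
  have hcR : ∀ l, c (1764 + l) = cR l := by
    intro l
    simp only [hcdef]
    rw [if_neg (by omega), if_neg (by omega), show 1764 + l - 1764 = l by omega]
  have hC : Cen D36 ι t0 g0 c := by
    refine ⟨⟨hcen, Subtype.val_injective, fun i j hi hj => ?_, fun i j hi hj hij => ?_⟩,
      fun y i hy hi => ?_, fun l hl => ?_⟩
    · rw [hcA i j hi (by omega)]; exact hA1 i j hi hj
    · rw [hcA i j hi hj]; exact hA3 i j hij
    · rw [hcB y i hy hi]; exact hB1 y i hy hi
    · rw [hcR l]; exact hR1 l hl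
  obtain ⟨h1, h2⟩ := h E (Subgroup.center E) ι t0 g0 c hC
  set τ : ℕ → Subgroup.center E := fun s => ∏ m ∈ range 574, c (1296 + m) ^ W s m with hτ
  have hpτ : ∀ s, p (ι (τ s)) = 1 := by
    intro s
    have : τ s ∈ (p.comp ι).ker := by
      simp only [hτ]
      exact Subgroup.prod_mem _ fun m _ => Subgroup.zpow_mem _ (hpc _) _
    exact this
  have hmod := mdl_of_cen D36_wf D36_len hC τ h1 h2
  refine ⟨lift D36_wf hmod, fun x => ?_⟩
  have : p.comp (lift D36_wf hmod) = MonoidHom.id _ := by
    apply hom_ext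
    · intro i hi
      rw [MonoidHom.comp_apply, lift_t D36_wf hmod i hi, map_mul, ht0, hpτ, mul_one]
      rfl
    · intro y hy
      rw [MonoidHom.comp_apply, lift_g D36_wf hmod y hy, map_mul, hg0, hpτ, mul_one]
      rfl
  exact DFunLike.congr_fun this x

/-- `SP` from the certificate -/
theorem sp_of_cert (W : ℕ → ℕ → ℤ) (h : Cert D36 W) : VRC.SP (XG D36) :=
  VRC.prf_Split (XG D36) fun E _ p hp hk _ => sec W h E p hp hk

end VRC.Pk
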