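import Mathlib
import Pool.Agent.Work.MP_332575_al.Bd.B02
import Pool.Agent.Work.MP_332575_al.Pk.Rep
import Pool.Agent.Work.MP_332575_al.Bd.B04

set_option autoImplicit false

/-! # `XG D36` is torsion free -/

namespace VRC.Pk

open Matrix

theorem chk_B15 : ∀ i < 36, ∀ j : Fin 15,
    (VRC.Cx.D15.Bc.getD i []).getD j.1 0 = (B15 i).getD j.1 0 := by decide +kernel

theorem chk_K15 : ∀ y < 11, ∀ j : Fin 15,
    (VRC.Cx.T15.getD y []).getD j.1 0 = (K15 y).getD j.1 0 := by decide +kernel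

theorem chk_T11 : ∀ j : Fin 15,
    (VRC.Cx.T15.getD 11 []).getD j.1 0 = (VRC.Tor.Lt15 0).getD j.1 0 := by decide +kernel

theorem chk_T12 : ∀ j : Fin 15,
    (VRC.Cx.T15.getD 12 []).getD j.1 0 = (VRC.Tor.Lt15 1).getD j.1 0 := by decide +kernel

theorem chk_A11 : VRC.Cx.A11 = VRC.Tor.LA15 0 := by decide +kernel

theorem chk_A12 : VRC.Cx.A12 = VRC.Tor.LA15 1 := by decide +kernel

theorem chk_irr : ∀ w ∈ W168, w ∈ irr := by decide +kernel

theorem XG_lin15 : Lin15 (xt D36) (xg D36) VRC.Cx.lin15 VRC.Cx.tr15 where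
  htr := VRC.Cx.tr15_mul
  lt := VRC.Cx.lin15_t
  tt i hi := by
    rw [VRC.Cx.tr15_t i hi]
    funext j
    exact chk_B15 i hi j
  lk := VRC.Cx.lin15_k
  tk y hy := by
    rw [VRC.Cx.tr15_g y (by omega)]
    funext j
    exact chk_K15 y hy j
  la := by rw [VRC.Cx.lin15_a, chk_A11]
  lb := by rw [VRC.Cx.lin15_b, chk_A12]
  ta := by
    rw [VRC.Cx.tr15_g 11 (by omega)]
    funext j
    exact chk_T11 j
  tb := by
    rw [VRC.Cx.tr15_g 12 (by omega)]
    funext j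
    exact chk_T12 j

/-- `XG D36` is torsion free -/
theorem XG_tf : ∀ x : XG D36, x ≠ 1 → ¬ IsOfFinOrder x := by
  refine torX XG_lin15 ?_ VRC.Cx.rep_inj ?_
  · intro i hi j hj
    exact (tp_comm1 (XG_mdl D36).comm i j hi hj).eq
  · intro x
    obtain ⟨v, K, w, h1, h2, h3, h4⟩ := normal_form x
    exact ⟨v, K, w, h4, h1, h2, chk_irr w h3⟩

end VRC.Pk
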